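import Pool.Agent.Results.MP_90c2fd_co.InducedThreshold

/-! The clique question is the instance of the threshold theorem at the complete graph. -/

set_option autoImplicit false

namespace Pool.Agent.Work.MP_90c2fd_co

open Finset

theorem clique_case :
    ∀ c n : ℕ, 2 ≤ c → 2 ≤ n → ∀ α : ℚ, (n : ℚ) < α →
      ∃ k₀ : ℕ, ∀ k : ℕ, k₀ ≤ k → ∀ m : ℕ, (m : ℚ) = α * (k : ℚ) →
        ∀ χ : (kneserGraph m k).edgeSet → Fin c,
          ∃ S : Finset {A : Finset (Fin m) // A.card = k}, (kneserGraph m k).IsNClique n S ∧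
            ∃ i : Fin c, ∀ A ∈ S, ∀ B ∈ S, ∀ h : (kneserGraph m k).Adj A B,
              χ ⟨s(A, B), h⟩ = i := by
  intro c n hc hn α hα
  have h1 : fracChrom (⊤ : SimpleGraph (Fin n)) < (α : ℝ) := by
    refine (fracChrom_le _ one_pos (foldCol_card _)).trans_lt ?_
    rw [Fintype.card_fin, Nat.cast_one, div_one]
    exact_mod_cast hα
  obtain ⟨k₀, hk⟩ := (Pool.Agent.Results.MP_90c2fd_co.InducedThreshold.result (Fin n) ⊤ c hc α
    (lt_of_le_of_lt (by exact_mod_cast hn) hα)).2 h1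
  refine ⟨k₀, fun k hk' m hm χ => ?_⟩
  obtain ⟨φ, i, hi⟩ := hk k hk' m hm χ
  refine ⟨univ.map φ.toEmbedding, ⟨?_, by simp⟩, i, ?_⟩
  · intro A hA B hB hAB
    obtain ⟨u, -, rfl⟩ := mem_map.1 hA
    obtain ⟨v, -, rfl⟩ := mem_map.1 hB
    exact φ.map_rel_iff.2 fun h => hAB (congrArg _ h)
  · intro A hA B hB h
    obtain ⟨u, -, rfl⟩ := mem_map.1 hA
    obtain ⟨v, -, rfl⟩ := mem_map.1 hB
    exact hi u v h

end Pool.Agent.Work.MP_90c2fd_co
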