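import Pool.Agent.Work.MP_90c2fd_co.Defs

set_option autoImplicit false

namespace Pool.Agent.Work.MP_90c2fd_co

/-- `H` has a `b`-fold colouring with `a` colours: every vertex gets a set of `b` of the `a`
colours, and adjacent vertices get disjoint sets. -/
def FoldCol {W : Type} (H : SimpleGraph W) (a b : ℕ) : Prop :=
  ∃ f : W → Finset (Fin a), (∀ v, (f v).card = b) ∧ ∀ u v, H.Adj u v → Disjoint (f u) (f v)

/-- The fractional chromatic number: the infimum of `a / b` over `b`-fold colourings with `a`
colours, `b ≥ 1`. -/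
noncomputable def fracChrom {W : Type} (H : SimpleGraph W) : ℝ :=
  sInf {x : ℝ | ∃ a b : ℕ, 0 < b ∧ FoldCol H a b ∧ x = (a : ℝ) / b}

/-- Every colouring of the edges of `G` with `c` colours has a monochromatic induced copy of `H`:
an injective map `φ` with `φ u`, `φ v` adjacent iff `u`, `v` are, all of whose edges get one
colour. -/
def IndArrows {V W : Type} (G : SimpleGraph V) (H : SimpleGraph W) (c : ℕ) : Prop :=
  ∀ χ : G.edgeSet → Fin c, ∃ (φ : H ↪g G) (i : Fin c), ∀ u v (h : G.Adj (φ u) (φ v)),
    χ ⟨s(φ u, φ v), h⟩ = i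

end Pool.Agent.Work.MP_90c2fd_co
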