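import Mathlib
import Pool.Agent.Lib.Ramsey.Finite
import Pool.Agent.Work.MP_90c2fd_co.Hedge.Defs

-- merged part: Pool.Agent.Work.MP_90c2fd_co.Shift
section
/-! Shift graphs: unbounded chromatic number (product form) and a random integer potential that
increases by one along each arc with high probability. -/

set_option autoImplicit false

namespace Pool.Agent.Work.MP_90c2fd_co

open Classical Finset
open scoped BigOperators

/-- Strictly increasing `L`-tuples in `Fin M`. -/
abbrev Tup (L M : ℕ) := {x : Fin L → Fin M // StrictMono x}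

/-- The first `L` entries of an `(L+1)`-tuple. -/
def lo {L M : ℕ} (y : Tup (L + 1) M) : Tup L M :=
  ⟨fun i => y.1 i.castSucc, fun _ _ h => y.2 (Fin.castSucc_lt_castSucc_iff.mpr h)⟩

/-- The last `L` entries of an `(L+1)`-tuple. -/
def hi {L M : ℕ} (y : Tup (L + 1) M) : Tup L M :=
  ⟨fun i => y.1 i.succ, fun _ _ h => y.2 (Fin.succ_lt_succ_iff.mpr h)⟩

theorem shift_ramsey (L : ℕ) : ∀ (C : Type) [Finite C], ∃ M : ℕ, ∀ χ : Tup (L + 1) M → C,
    ∃ y : Tup (L + 2) M, χ (lo y) = χ (hi y) := by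
  induction L with
  | zero =>
    intro C _
    have := Fintype.ofFinite C
    refine ⟨Fintype.card C + 1, fun χ => ?_⟩
    let p : Fin (Fintype.card C + 1) → Tup 1 (Fintype.card C + 1) := fun a =>
      ⟨fun _ => a, fun i j h => absurd h (by simp [Subsingleton.elim i j])⟩
    obtain ⟨a, b, hab, h⟩ := Fintype.exists_ne_map_eq_of_card_lt (fun a => χ (p a)) (by simp)
    have key : ∀ a b : Fin (Fintype.card C + 1), a < b → χ (p a) = χ (p b) →
        ∃ y : Tup 2 (Fintype.card C + 1), χ (lo y) = χ (hi y) := by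
      intro a b hlt h
      refine ⟨⟨![a, b], ?_⟩, ?_⟩
      · intro i j hij
        fin_cases i <;> fin_cases j <;> simp_all
      · have h1 : lo (L := 1) ⟨![a, b], by
            intro i j hij
            fin_cases i <;> fin_cases j <;> simp_all⟩ = p a := by
          apply Subtype.ext; funext i; fin_cases i; rfl
        have h2 : hi (L := 1) ⟨![a, b], by
            intro i j hij
            fin_cases i <;> fin_cases j <;> simp_all⟩ = p b := by
          apply Subtype.ext; funext i; fin_cases i; rfl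
        rw [h1, h2, h]
    rcases lt_or_gt_of_ne hab with h1 | h1
    · exact key a b h1 h
    · exact key b a h1 h.symm
  | succ L ih =>
    intro C _
    obtain ⟨M, hM⟩ := ih (Set C)
    refine ⟨M, fun χ => ?_⟩
    obtain ⟨y, hy⟩ := hM (fun x => {k | ∃ z : Tup (L + 2) M, lo z = x ∧ χ z = k})
    have h1 : χ y ∈ {k | ∃ z : Tup (L + 2) M, lo z = lo y ∧ χ z = k} := ⟨y, rfl, rfl⟩
    rw [hy] at h1
    obtain ⟨z, hz, hc⟩ := h1
    have hz' : ∀ i : Fin (L + 1), z.1 i.castSucc = y.1 i.succ := fun i =>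
      congrFun (congrArg Subtype.val hz) i
    have hw : StrictMono (Fin.cons (y.1 0) z.1 : Fin (L + 3) → Fin M) := by
      rw [Fin.strictMono_iff_lt_succ]
      intro i
      refine Fin.cases ?_ (fun j => ?_) i
      · have := hz' 0
        simp only [Fin.castSucc_zero, Fin.cons_zero, Fin.cons_succ] at this ⊢
        rw [this]
        exact y.2 (Fin.succ_pos _)
      · rw [← Fin.succ_castSucc, Fin.cons_succ, Fin.cons_succ]
        exact z.2 (Fin.castSucc_lt_succ)
    refine ⟨⟨_, hw⟩, ?_⟩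
    have e1 : lo (⟨_, hw⟩ : Tup (L + 3) M) = y := by
      apply Subtype.ext; funext i
      refine Fin.cases ?_ (fun j => ?_) i
      · simp [lo]
      · simp only [lo]
        rw [← Fin.succ_castSucc, Fin.cons_succ, hz']
    have e2 : hi (⟨_, hw⟩ : Tup (L + 3) M) = z := by
      apply Subtype.ext; funext i
      simp [hi]
    rw [e1, e2, hc]

/-- Enlarging the ground set. -/
def emb {L M M' : ℕ} (h : M ≤ M') (x : Tup L M) : Tup L M' :=
  ⟨fun i => Fin.castLE h (x.1 i), fun _ _ hij => (Fin.castLE_lt_castLE_iff h).mpr (x.2 hij)⟩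

/-- Choosing the lower window, the upper window or the whole tuple. -/
def sel {L M : ℕ} (y : Tup (L + 1) M) : Option Bool → Tup L M ⊕ Tup (L + 1) M
  | none => Sum.inr y
  | some true => Sum.inl (lo y)
  | some false => Sum.inl (hi y)

theorem sel_emb {L M M' : ℕ} (h : M ≤ M') (y : Tup (L + 1) M) (s : Option Bool) :
    sel (emb h y) s = Sum.map (emb h) (emb h) (sel y s) := by
  rcases s with _ | _ | _ <;> rfl

theorem prod_shift_ramsey_fin (L n : ℕ) : ∀ (C : Type) [Finite C], ∃ M : ℕ,
    ∀ χ : (Fin n → Tup (L + 1) M ⊕ Tup (L + 2) M) → C, ∃ y : Fin n → Tup (L + 2) M,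
      ∀ s s' : Fin n → Option Bool, (∀ u, s u = none ↔ s' u = none) →
        χ (fun u => sel (y u) (s u)) = χ (fun u => sel (y u) (s' u)) := by
  induction n with
  | zero =>
    intro C _
    refine ⟨0, fun χ => ⟨fun u => u.elim0, fun s s' _ => ?_⟩⟩
    congr 1
    funext u; exact u.elim0
  | succ n ih =>
    intro C _
    obtain ⟨M₁, h₁⟩ := ih (C × C)
    obtain ⟨M₂, h₂⟩ := shift_ramsey L ((Fin n → Tup (L + 1) M₁ ⊕ Tup (L + 2) M₁) → C)
    refine ⟨max M₁ M₂, fun χ => ?_⟩
    have l₁ : M₁ ≤ max M₁ M₂ := le_max_left _ _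
    have l₂ : M₂ ≤ max M₁ M₂ := le_max_right _ _
    let F : (Tup (L + 1) M₂ ⊕ Tup (L + 2) M₂) → (Fin n → Tup (L + 1) M₁ ⊕ Tup (L + 2) M₁) → C :=
      fun a Z => χ (Fin.cons (Sum.map (emb l₂) (emb l₂) a)
        (fun u => Sum.map (emb l₁) (emb l₁) (Z u)))
    obtain ⟨y₀, hy₀⟩ := h₂ (fun x => F (Sum.inl x))
    obtain ⟨y', hy'⟩ := h₁ (fun Z => (F (Sum.inl (lo y₀)) Z, F (Sum.inr y₀) Z))
    refine ⟨Fin.cons (emb l₂ y₀) (fun u => emb l₁ (y' u)), fun s s' hs => ?_⟩
    have e : ∀ s : Fin (n + 1) → Option Bool,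
        χ (fun u => sel ((Fin.cons (emb l₂ y₀) (fun u => emb l₁ (y' u)) :
          Fin (n + 1) → Tup (L + 2) (max M₁ M₂)) u) (s u)) =
        F (sel y₀ (s 0)) (fun u => sel (y' u) (s u.succ)) := by
      intro s
      simp only [F]
      congr 1
      funext u
      refine Fin.cases ?_ (fun j => ?_) u
      · simp [sel_emb]
      · simp [sel_emb]
    rw [e s, e s']
    have h3 := hy' (fun u => s u.succ) (fun u => s' u.succ) (fun u => hs u.succ)
    have h4 := congrArg Prod.fst h3
    have h5 := congrArg Prod.snd h3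
    simp only at h4 h5
    have h6 : ∀ b : Bool, F (sel y₀ (some b)) = F (Sum.inl (lo y₀)) := by
      intro b
      cases b
      · exact hy₀.symm
      · rfl
    have h0 := hs 0
    rcases h7 : s 0 with _ | b
    · have h8 : s' 0 = none := h0.mp h7
      rw [h8]
      exact h5
    · rcases h8 : s' 0 with _ | b'
      · rw [h0.mpr h8] at h7
        cases h7
      · rw [h6, h6]
        exact h4

theorem prod_shift_ramsey (L : ℕ) (U C : Type) [Finite U] [Finite C] : ∃ M : ℕ,
    ∀ χ : (U → Tup (L + 1) M ⊕ Tup (L + 2) M) → C, ∃ y : U → Tup (L + 2) M,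
      ∀ s s' : U → Option Bool, (∀ u, s u = none ↔ s' u = none) →
        χ (fun u => sel (y u) (s u)) = χ (fun u => sel (y u) (s' u)) := by
  obtain ⟨n, ⟨e⟩⟩ := Finite.exists_equiv_fin U
  obtain ⟨M, hM⟩ := prod_shift_ramsey_fin L n C
  refine ⟨M, fun χ => ?_⟩
  obtain ⟨y, hy⟩ := hM (fun Z => χ (fun u => Z (e u)))
  refine ⟨fun u => y (e u), fun s s' hs => ?_⟩
  have := hy (fun i => s (e.symm i)) (fun i => s' (e.symm i)) (fun i => hs _)
  simpa using this

/-- Position of the first marker (label zero) of a tuple. -/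
noncomputable def pot {L M q : ℕ} (x : Tup L M) (l : Fin M → Fin (q + 1)) : ℤ :=
  ((sInf {i : ℕ | ∃ h : i < L, l (x.1 ⟨i, h⟩) = 0} : ℕ) : ℤ)

/-- The first entry is not a marker but some entry is. -/
def good {L M q : ℕ} (x : Tup (L + 1) M) (l : Fin M → Fin (q + 1)) : Prop :=
  l (x.1 0) ≠ 0 ∧ ∃ i, l (x.1 i) = 0

theorem pot_lo {L M q : ℕ} (y : Tup (L + 2) M) (l : Fin M → Fin (q + 1)) (h : good (lo y) l) :
    pot (lo y) l = pot (hi y) l + 1 := by
  obtain ⟨h0, i, hi'⟩ := h
  set S := {i : ℕ | ∃ h : i < L + 1, l ((lo y).1 ⟨i, h⟩) = 0} with hS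
  set S' := {i : ℕ | ∃ h : i < L + 1, l ((hi y).1 ⟨i, h⟩) = 0} with hS'
  have hne : S.Nonempty := ⟨i.1, i.2, hi'⟩
  obtain ⟨ha, hal⟩ := Nat.sInf_mem hne
  have ha0 : sInf S ≠ 0 := by
    intro h
    apply h0
    have : (⟨sInf S, ha⟩ : Fin (L + 1)) = 0 := Fin.ext h
    rwa [this] at hal
  have hmem : sInf S - 1 ∈ S' := by
    refine ⟨by omega, ?_⟩
    rw [← hal]
    simp only [lo, hi]
    have e : (⟨sInf S - 1, by omega⟩ : Fin (L + 1)).succ = (⟨sInf S, ha⟩ : Fin (L + 1)).castSucc := by
      apply Fin.ext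
      simp
      omega
    rw [e]
  have hb : sInf S' ≤ sInf S - 1 := Nat.sInf_le hmem
  obtain ⟨hb1, hb2⟩ := Nat.sInf_mem ⟨_, hmem⟩
  have hmem2 : sInf S' + 1 ∈ S := by
    refine ⟨by omega, ?_⟩
    rw [← hb2]
    simp only [lo, hi]
    congr 2
  have hc : sInf S ≤ sInf S' + 1 := Nat.sInf_le hmem2
  simp only [pot]
  rw [← hS, ← hS']
  omega

/-- The density of a predicate on a finite type. -/
noncomputable def dns {α : Type} [Fintype α] (P : α → Prop) : ℝ :=
  𝔼 a, if P a then (1 : ℝ) else 0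

theorem dns_def {α : Type} [Fintype α] (P : α → Prop) [DecidablePred P] :
    dns P = 𝔼 a, if P a then (1 : ℝ) else 0 := by
  rw [dns]
  congr!

theorem dns_eq {α : Type} [Fintype α] (P : α → Prop) [DecidablePred P] :
    dns P = ((univ.filter P).card : ℝ) / Fintype.card α := by
  rw [dns, Finset.expect_eq_sum_div_card, Finset.card_univ, Finset.card_filter]
  push_cast
  congr!

theorem dns_cyl {M q : ℕ} (S : Finset (Fin M)) (T : Finset (Fin (q + 1))) :
    dns (fun l : Fin M → Fin (q + 1) => ∀ a ∈ S, l a ∈ T) = ((T.card : ℝ) / (q + 1)) ^ S.card := by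
  rw [dns_eq]
  have h1 : (univ.filter (fun l : Fin M → Fin (q + 1) => ∀ a ∈ S, l a ∈ T)) =
      Fintype.piFinset (fun a => if a ∈ S then T else univ) := by
    ext l
    simp only [mem_filter, mem_univ, true_and, Fintype.mem_piFinset]
    constructor
    · intro h a
      split_ifs with ha
      · exact h a ha
      · exact mem_univ _
    · intro h a ha
      have := h a
      rwa [if_pos ha] at this
  rw [h1, Fintype.card_piFinset]
  have h2 : (Fintype.card (Fin M → Fin (q + 1)) : ℝ) = ∏ _a : Fin M, ((q : ℝ) + 1) := by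
    simp
  rw [h2]
  push_cast
  rw [← Finset.prod_div_distrib]
  have h3 : ∀ a : Fin M, (((if a ∈ S then T else univ).card : ℕ) : ℝ) / ((q : ℝ) + 1) =
      if a ∈ S then (T.card : ℝ) / (q + 1) else 1 := by
    intro a
    split_ifs
    · rfl
    · simp only [card_univ, Fintype.card_fin]
      push_cast
      exact div_self (by positivity)
  simp only [h3]
  rw [Finset.prod_ite_mem, Finset.univ_inter, Finset.prod_const]

theorem dns_or_le {α : Type} [Fintype α] (P Q R : α → Prop) (h : ∀ a, P a → Q a ∨ R a) :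
    dns P ≤ dns Q + dns R := by
  simp only [dns]
  rw [← Finset.expect_add_distrib]
  apply Finset.expect_le_expect
  intro a _
  by_cases hp : P a
  · rcases h a hp with h1 | h1
    · simp only [hp, h1, if_true]; split_ifs <;> norm_num
    · simp only [hp, h1, if_true]; split_ifs <;> norm_num
  · simp only [hp, if_false]; split_ifs <;> norm_num

theorem dns_bad {L M q : ℕ} (x : Tup (L + 1) M) :
    dns (fun l : Fin M → Fin (q + 1) => ¬ good x l) ≤
      1 / ((q : ℝ) + 1) + ((q : ℝ) / (q + 1)) ^ (L + 1) := by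
  have h := dns_or_le (fun l : Fin M → Fin (q + 1) => ¬ good x l)
    (fun l => ∀ a ∈ ({x.1 0} : Finset (Fin M)), l a ∈ ({0} : Finset (Fin (q + 1))))
    (fun l => ∀ a ∈ univ.image x.1, l a ∈ (univ.erase 0 : Finset (Fin (q + 1)))) (by
      intro l hl
      by_cases h0 : l (x.1 0) = 0
      · left; simpa using h0
      · right
        intro a ha
        obtain ⟨i, -, rfl⟩ := mem_image.mp ha
        simp only [mem_erase, mem_univ, and_true]
        intro hi'
        exact hl ⟨h0, i, hi'⟩)
  rw [dns_cyl, dns_cyl] at h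
  rw [Finset.card_image_of_injective _ x.2.injective] at h
  simpa using h

theorem exists_params (ε : ℝ) (hε : 0 < ε) : ∃ L q : ℕ, ∀ (M : ℕ) (x : Tup (L + 1) M),
    dns (fun l : Fin M → Fin (q + 1) => ¬ good x l) ≤ ε := by
  obtain ⟨q, hq⟩ := exists_nat_one_div_lt (half_pos hε)
  have h1 : (q : ℝ) / (q + 1) < 1 := by
    rw [div_lt_one (by positivity)]; linarith only []
  obtain ⟨L, hL⟩ := exists_pow_lt_of_lt_one (half_pos hε) h1
  refine ⟨L, q, fun M x => (dns_bad x).trans ?_⟩
  have h2 : ((q : ℝ) / (q + 1)) ^ (L + 1) ≤ ((q : ℝ) / (q + 1)) ^ L :=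
    pow_le_pow_of_le_one (by positivity) h1.le (Nat.le_succ _)
  linarith only [hq, hL, h2]

/-- Whole object, lower window or upper window. -/
noncomputable def pick {A B : Type} (lo hi : B → A) (b : B) (f s : Prop) : A ⊕ B :=
  if f then Sum.inr b else if s then Sum.inl (lo b) else Sum.inl (hi b)

theorem pick_full {A B : Type} (lo hi : B → A) (b : B) {f : Prop} (s : Prop) (h : f) :
    pick lo hi b f s = Sum.inr b := by simp [pick, h]

theorem pick_lo {A B : Type} (lo hi : B → A) (b : B) {f s : Prop} (h : ¬ f) (h' : s) :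
    pick lo hi b f s = Sum.inl (lo b) := by simp [pick, h, h']

theorem pick_hi {A B : Type} (lo hi : B → A) (b : B) {f s : Prop} (h : ¬ f) (h' : ¬ s) :
    pick lo hi b f s = Sum.inl (hi b) := by simp [pick, h, h']

/-- The abstract gadget: a product shift system over a finite index type. -/
theorem exists_gadget (U C : Type) [Finite U] [Finite C] (ε : ℝ) (hε : 0 < ε) :
    ∃ (A B Λ : Type) (_ : Finite A) (_ : Finite B) (_ : Fintype Λ) (_ : Nonempty Λ)
      (lo hi : B → A) (t : A → Λ → ℤ) (good : A → Λ → Prop),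
      (∀ b l, good (lo b) l → t (lo b) l = t (hi b) l + 1) ∧
      (∀ a, dns (fun l => ¬ good a l) ≤ ε) ∧
      ∀ χ : (U → A ⊕ B) → C, ∃ y : U → B, ∀ (s s' : U → Prop) (f : U → Prop),
        χ (fun u => pick lo hi (y u) (f u) (s u)) =
        χ (fun u => pick lo hi (y u) (f u) (s' u)) := by
  obtain ⟨L, q, hLq⟩ := exists_params ε hε
  obtain ⟨M, hM⟩ := prod_shift_ramsey L U C
  refine ⟨Tup (L + 1) M, Tup (L + 2) M, Fin M → Fin (q + 1), inferInstance, inferInstance,
    inferInstance, inferInstance, lo, hi, pot, good, pot_lo, hLq M, fun χ => ?_⟩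
  obtain ⟨y, hy⟩ := hM χ
  refine ⟨y, fun s s' f => ?_⟩
  have e : ∀ s : U → Prop, (fun u => pick lo hi (y u) (f u) (s u)) =
      fun u => sel (y u) (if f u then none else some (decide (s u))) := by
    intro s
    funext u
    by_cases h1 : f u
    · simp [h1, sel, pick]
    · by_cases h2 : s u <;> simp [h1, h2, sel, pick]
  rw [e s, e s']
  apply hy
  intro u
  by_cases h1 : f u <;> simp [h1]

end Pool.Agent.Work.MP_90c2fd_co
end

-- merged part: Pool.Agent.Work.MP_90c2fd_co.Sys
section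
/-! Ramsey systems of typed edges carrying random group-valued states, and the merging levels. -/

set_option autoImplicit false

namespace Pool.Agent.Work.MP_90c2fd_co

open Classical Finset
open scoped BigOperators

/-- A Ramsey system: vertex types `V` with a class in `Fin N`, edge types `E`, cliques `Q`,
random coordinate `U`, edge states `W`, clique reference states `R`, and for each vertex type
a set `H` containing every discrepancy not yet removed. -/
structure Sys (G : Type) [Group G] (r N c : ℕ) (σ : Fin r → Fin r → G) where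
  U : Type
  V : Type
  E : Type
  Q : Type
  [fU : Fintype U]
  [neU : Nonempty U]
  [fE : Finite E]
  cls : V → Fin N
  src : E → V
  tgt : E → V
  W : E → U → G
  vq : Q → Fin r → V
  eq : Q → Fin r → Fin r → E
  R : Q → U → G
  H : V → U → Finset G
  hsrc : ∀ q i j, i < j → src (eq q i j) = vq q i
  htgt : ∀ q i j, i < j → tgt (eq q i j) = vq q j
  hinj : ∀ q i j, cls (vq q i) = cls (vq q j) → i = j
  hH : ∀ q i j l u, i < j → l ≠ i → l ≠ j →
    W (eq q i j) u * (σ i j)⁻¹ * (R q u)⁻¹ = 1 ∨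
      W (eq q i j) u * (σ i j)⁻¹ * (R q u)⁻¹ ∈ H (vq q l) u
  ramsey : ∀ χ : E → Fin c, ∃ q k, ∀ i j, i < j → χ (eq q i j) = k

attribute [instance] Sys.fU Sys.neU Sys.fE

variable {G : Type} [Group G] [Fintype G] {r N c : ℕ} {σ : Fin r → Fin r → G}

/-- Expected number of discrepancies not yet removed. -/
noncomputable def Sys.phi (S : Sys G r N c σ) (τ : S.V) : ℝ :=
  𝔼 u, ((S.H τ u).card : ℝ)

/-- Probability that some discrepancy is not yet removed. -/
noncomputable def Sys.psi (S : Sys G r N c σ) (τ : S.V) : ℝ :=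
  dns (fun u => S.H τ u ≠ ∅)

omit [Fintype G] in
theorem Sys.psi_le_phi (S : Sys G r N c σ) (τ : S.V) : S.psi τ ≤ S.phi τ := by
  simp only [Sys.psi, Sys.phi, dns]
  apply Finset.expect_le_expect
  intro u _
  split_ifs with h
  · have : 0 < (S.H τ u).card := Finset.card_pos.mpr (Finset.nonempty_iff_ne_empty.mpr h)
    exact_mod_cast this
  · positivity

theorem Sys.phi_le (S : Sys G r N c σ) (τ : S.V) : S.phi τ ≤ Fintype.card G := by
  simp only [Sys.phi]
  apply Finset.expect_le Finset.univ_nonempty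
  intro u _
  exact_mod_cast Finset.card_le_univ _

theorem expect_prod {α β : Type} [Fintype α] [Fintype β] (f : α × β → ℝ) :
    𝔼 x, f x = 𝔼 a, 𝔼 b, f (a, b) := by
  rw [← Finset.univ_product_univ, Finset.expect_product]

theorem expect_erase (H : Finset G) :
    𝔼 g : G, ((H.erase g⁻¹).card : ℝ) = (1 - 1 / (Fintype.card G : ℝ)) * H.card := by
  have h1 : ∀ g : G, ((H.erase g⁻¹).card : ℝ) = H.card - if g⁻¹ ∈ H then (1 : ℝ) else 0 := by
    intro g
    split_ifs with h
    · rw [Finset.card_erase_of_mem h]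
      have : 0 < H.card := Finset.card_pos.mpr ⟨_, h⟩
      rw [Nat.cast_sub this]; simp
    · rw [Finset.erase_eq_of_notMem h]; simp
  simp only [h1]
  rw [Finset.expect_sub_distrib, Finset.expect_const Finset.univ_nonempty,
    Finset.expect_eq_sum_div_card, Finset.card_univ]
  have h2 : ∑ g : G, (if g⁻¹ ∈ H then (1 : ℝ) else 0) = H.card := by
    rw [← Equiv.sum_comp (Equiv.inv G)]
    simp
  rw [h2]
  ring

theorem level (S : Sys G r N c σ) (w : Fin N) (ε : ℝ) (hε : 0 < ε) : ∃ S' : Sys G r N c σ,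
    (∀ a : ℝ, 0 ≤ a → (∀ τ, S.cls τ = w → S.phi τ ≤ a) →
      ∀ τ', S'.cls τ' = w → S'.phi τ' ≤ (1 - 1 / (Fintype.card G : ℝ)) * a + ε) ∧
    (∀ w', w' ≠ w → ∀ δ : ℝ, (∀ τ, S.cls τ = w' → S.psi τ ≤ δ) →
      ∀ τ', S'.cls τ' = w' → S'.psi τ' ≤ δ) := by
  have hG : (0 : ℝ) < Fintype.card G := by exact_mod_cast Fintype.card_pos
  obtain ⟨A, B, Λ, _, _, _, _, lo, hi, t, good, hgood, hbad, hram⟩ :=
    exists_gadget (S.U × G) (S.E → Fin c) (ε / Fintype.card G) (by positivity)
  let Z := S.U × G → A ⊕ B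
  let touch : S.E → Prop := fun e => S.cls (S.src e) = w ∨ S.cls (S.tgt e) = w
  let disc : S.Q → Fin r → Fin r → S.U → G := fun q i j u =>
    S.W (S.eq q i j) u * (σ i j)⁻¹ * (S.R q u)⁻¹
  let zq : S.Q → (S.U × G → B) → Fin r → Fin r → Z := fun q y i j p =>
    pick lo hi (y p) (touch (S.eq q i j)) (p.2 * disc q i j p.1 = 1)
  let ρ : A ⊕ B → A := Sum.elim id hi
  let HH : S.V → Option Z → (S.U × G) × Λ → Finset G := fun τ oz x =>
    if S.cls τ = w then
      (match oz with
      | none => ∅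
      | some z =>
        match z x.1 with
        | Sum.inl _ => ∅
        | Sum.inr b =>
          if good (lo b) x.2 then
            ((S.H τ x.1.1).erase x.1.2⁻¹).image
              (fun h => x.1.2 ^ t (hi b) x.2 * h * (x.1.2 ^ t (hi b) x.2)⁻¹)
          else univ)
    else if S.H τ x.1.1 = ∅ then ∅ else univ
  let S' : Sys G r N c σ :=
    { U := (S.U × G) × Λ
      V := S.V × Option Z
      E := S.E × Z
      Q := S.Q × (S.U × G → B)
      cls := fun τ => S.cls τ.1
      src := fun e => (S.src e.1, if S.cls (S.src e.1) = w then some e.2 else none)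
      tgt := fun e => (S.tgt e.1, if S.cls (S.tgt e.1) = w then some e.2 else none)
      W := fun e x => x.1.2 ^ t (ρ (e.2 x.1)) x.2 * S.W e.1 x.1.1
      vq := fun q i => (S.vq q.1 i,
        if S.cls (S.vq q.1 i) = w then some (fun p => Sum.inr (q.2 p)) else none)
      eq := fun q i j => (S.eq q.1 i j, zq q.1 q.2 i j)
      R := fun q x => x.1.2 ^ t (hi (q.2 x.1)) x.2 * S.R q.1 x.1.1
      H := fun τ x => HH τ.1 τ.2 x
      hsrc := by
        rintro ⟨q, y⟩ i j hij
        simp only [S.hsrc q i j hij]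
        congr 1
        split_ifs with h
        · congr 1
          funext p
          have : touch (S.eq q i j) := Or.inl (by rw [S.hsrc q i j hij]; exact h)
          simp only [zq, pick_full _ _ _ _ this]
        · rfl
      htgt := by
        rintro ⟨q, y⟩ i j hij
        simp only [S.htgt q i j hij]
        congr 1
        split_ifs with h
        · congr 1
          funext p
          have : touch (S.eq q i j) := Or.inr (by rw [S.htgt q i j hij]; exact h)
          simp only [zq, pick_full _ _ _ _ this]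
        · rfl
      hinj := fun q i j h => S.hinj q.1 i j h
      hH := by
        rintro ⟨q, y⟩ i j l ⟨⟨u, g⟩, lam⟩ hij hli hlj
        have key : ∀ a : ℤ, g ^ a * S.W (S.eq q i j) u * (σ i j)⁻¹ *
            (g ^ t (hi (y (u, g))) lam * S.R q u)⁻¹ =
            g ^ a * disc q i j u * (g ^ t (hi (y (u, g))) lam)⁻¹ := by
          intro a; simp only [disc]; group
        simp only [key]
        have hold := S.hH q i j l u hij hli hlj
        change disc q i j u = 1 ∨ disc q i j u ∈ _ at hold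
        by_cases hw : S.cls (S.vq q l) = w
        · have hnt : ¬ touch (S.eq q i j) := by
            rintro (h | h)
            · rw [S.hsrc q i j hij] at h
              exact hli (S.hinj q l i (hw.trans h.symm))
            · rw [S.htgt q i j hij] at h
              exact hlj (S.hinj q l j (hw.trans h.symm))
          simp only [HH, if_pos hw, zq]
          by_cases hg : good (lo (y (u, g))) lam
          · rw [if_pos hg]
            by_cases h1 : g * disc q i j u = 1
            · left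
              simp only [pick_lo _ _ _ hnt h1, ρ, Sum.elim_inl, id]
              rw [hgood _ _ hg, zpow_add_one, mul_assoc (g ^ _) g, h1]
              group
            · simp only [pick_hi _ _ _ hnt h1, ρ, Sum.elim_inl, id]
              rcases hold with h2 | h2
              · left; rw [h2]; group
              · right
                refine Finset.mem_image.mpr ⟨disc q i j u, Finset.mem_erase.mpr ⟨?_, h2⟩, rfl⟩
                intro h3
                apply h1
                rw [h3]; group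
          · right
            rw [if_neg hg]
            exact mem_univ _
        · simp only [HH, if_neg hw]
          by_cases he : S.H (S.vq q l) u = ∅
          · left
            have h2 : disc q i j u = 1 := by
              rcases hold with h2 | h2
              · exact h2
              · rw [he] at h2; exact absurd h2 (Finset.notMem_empty _)
            simp only [zq, h2, mul_one]
            by_cases h3 : touch (S.eq q i j)
            · simp [ρ, pick_full _ _ _ _ h3]
            · by_cases h4 : g = 1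
              · simp [h4]
              · simp [ρ, pick_hi _ _ _ h3 h4]
          · right
            rw [if_neg he]
            exact mem_univ _
      ramsey := by
        intro χ
        obtain ⟨y, hy⟩ := hram (fun z e => χ (e, z))
        obtain ⟨q, k, hq⟩ := S.ramsey (fun e => χ (e, fun p => pick lo hi (y p) (touch e) False))
        refine ⟨(q, y), k, fun i j hij => ?_⟩
        rw [← hq i j hij]
        exact congrFun (hy (fun p => p.2 * disc q i j p.1 = 1) (fun _ => False)
          (fun _ => touch (S.eq q i j))) (S.eq q i j) }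
  refine ⟨S', ?_, ?_⟩
  · rintro a ha0 ha ⟨τ, oz⟩ hτ
    have hτ' : S.cls τ = w := hτ
    have h1 : 0 ≤ 1 - 1 / (Fintype.card G : ℝ) := by
      rw [sub_nonneg, div_le_one hG]
      exact_mod_cast Fintype.card_pos
    change 𝔼 x : (S.U × G) × Λ, ((HH τ oz x).card : ℝ) ≤ _
    have hb : ∀ p : S.U × G, 𝔼 lam : Λ, ((HH τ oz (p, lam)).card : ℝ) ≤
        (((S.H τ p.1).erase p.2⁻¹).card : ℝ) + ε := by
      intro p
      simp only [HH, if_pos hτ']
      rcases oz with _ | z
      · simp only [card_empty, Nat.cast_zero, Finset.expect_const_zero]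
        positivity
      · simp only
        rcases z p with a' | b
        · simp only [card_empty, Nat.cast_zero, Finset.expect_const_zero]
          positivity
        · simp only
          have h2 := hbad (lo b)
          calc _ ≤ 𝔼 lam : Λ, ((((S.H τ p.1).erase p.2⁻¹).card : ℝ) +
                (Fintype.card G : ℝ) * (if ¬ good (lo b) lam then (1 : ℝ) else 0)) := by
                apply Finset.expect_le_expect
                intro lam _
                by_cases hg : good (lo b) lam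
                · simp only [hg, if_true, not_true, if_false, mul_zero, add_zero]
                  exact_mod_cast Finset.card_image_le
                · simp only [hg, if_false, not_false_iff, if_true, mul_one, card_univ]
                  have : (0 : ℝ) ≤ (((S.H τ p.1).erase p.2⁻¹).card : ℝ) := by positivity
                  linarith only []
            _ = (((S.H τ p.1).erase p.2⁻¹).card : ℝ) +
                (Fintype.card G : ℝ) * dns (fun lam => ¬ good (lo b) lam) := by
                rw [Finset.expect_add_distrib, Finset.expect_const Finset.univ_nonempty,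
                  ← Finset.mul_expect, dns_def]
            _ ≤ _ := by
                have := mul_le_mul_of_nonneg_left h2 hG.le
                rw [mul_div_cancel₀ _ hG.ne'] at this
                linarith only [this]
    rw [expect_prod]
    calc _ ≤ 𝔼 p : S.U × G, ((((S.H τ p.1).erase p.2⁻¹).card : ℝ) + ε) :=
          Finset.expect_le_expect (fun p _ => hb p)
      _ = (1 - 1 / (Fintype.card G : ℝ)) * S.phi τ + ε := by
          rw [Finset.expect_add_distrib, Finset.expect_const Finset.univ_nonempty, expect_prod]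
          simp only [expect_erase]
          rw [← Finset.mul_expect]
          rfl
      _ ≤ _ := by
          have := mul_le_mul_of_nonneg_left (ha τ hτ') h1
          linarith only [this]
  · rintro w' hw' δ hδ ⟨τ, oz⟩ hτ
    have hτ' : S.cls τ = w' := hτ
    have hτ'' : ¬ S.cls τ = w := fun h => hw' (hτ'.symm.trans h)
    refine le_trans (le_of_eq ?_) (hδ τ hτ')
    change dns (fun x : (S.U × G) × Λ => HH τ oz x ≠ ∅) = _
    rw [dns_def, expect_prod, expect_prod, Sys.psi, dns_def]
    congr 1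
    funext u
    by_cases he : S.H τ u = ∅
    · simp [HH, hτ'', he]
    · simp [HH, hτ'', he, Finset.univ_nonempty.ne_empty]

theorem block (S : Sys G r N c σ) (w : Fin N) (k : ℕ) : ∀ η : ℝ, 0 < η →
    ∃ S' : Sys G r N c σ,
    (∀ τ', S'.cls τ' = w →
      S'.phi τ' ≤ (1 - 1 / (Fintype.card G : ℝ)) ^ k * Fintype.card G + η) ∧
    (∀ w', w' ≠ w → ∀ δ : ℝ, (∀ τ, S.cls τ = w' → S.psi τ ≤ δ) →
      ∀ τ', S'.cls τ' = w' → S'.psi τ' ≤ δ) := by
  have hG : (0 : ℝ) < Fintype.card G := by exact_mod_cast Fintype.card_pos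
  have h1 : 0 ≤ 1 - 1 / (Fintype.card G : ℝ) := by
    rw [sub_nonneg, div_le_one hG]
    exact_mod_cast Fintype.card_pos
  have h2 : 1 - 1 / (Fintype.card G : ℝ) ≤ 1 := by
    have : 0 ≤ 1 / (Fintype.card G : ℝ) := by positivity
    linarith only [this]
  induction k with
  | zero =>
    intro η hη
    refine ⟨S, fun τ _ => ?_, fun w' _ δ h => h⟩
    have := S.phi_le τ
    simp only [pow_zero, one_mul]
    linarith only [hη, this]
  | succ k ih =>
    intro η hη
    obtain ⟨S₁, h3, h4⟩ := ih (η / 2) (half_pos hη)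
    obtain ⟨S₂, h5, h6⟩ := level S₁ w (η / 2) (half_pos hη)
    refine ⟨S₂, fun τ hτ => ?_, fun w' hw' δ h => h6 w' hw' δ (h4 w' hw' δ h)⟩
    have h7 := h5 _ (by positivity) h3 τ hτ
    have h8 : (1 - 1 / (Fintype.card G : ℝ)) * (η / 2) ≤ η / 2 :=
      mul_le_of_le_one_left (half_pos hη).le h2
    rw [mul_add, ← mul_assoc, ← pow_succ'] at h7
    linarith only [h7, h8]

theorem block' (S : Sys G r N c σ) (w : Fin N) (δ : ℝ) (hδ : 0 < δ) :
    ∃ S' : Sys G r N c σ, (∀ τ', S'.cls τ' = w → S'.psi τ' ≤ δ) ∧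
    (∀ w', w' ≠ w → (∀ τ, S.cls τ = w' → S.psi τ ≤ δ) →
      ∀ τ', S'.cls τ' = w' → S'.psi τ' ≤ δ) := by
  have hG : (0 : ℝ) < Fintype.card G := by exact_mod_cast Fintype.card_pos
  have h2 : 1 - 1 / (Fintype.card G : ℝ) < 1 := by
    have : 0 < 1 / (Fintype.card G : ℝ) := by positivity
    linarith only [this]
  obtain ⟨k, hk⟩ := exists_pow_lt_of_lt_one (x := δ / 2 / Fintype.card G) (by positivity) h2
  obtain ⟨S', h3, h4⟩ := block S w k (δ / 2) (half_pos hδ)
  refine ⟨S', fun τ hτ => (S'.psi_le_phi τ).trans ((h3 τ hτ).trans ?_),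
    fun w' hw' h => h4 w' hw' δ h⟩
  rw [lt_div_iff₀ hG] at hk
  linarith only [hk]

theorem all_blocks (S : Sys G r N c σ) (δ : ℝ) (hδ : 0 < δ) (D : Finset (Fin N)) :
    ∃ S' : Sys G r N c σ, ∀ τ, S'.cls τ ∈ D → S'.psi τ ≤ δ := by
  induction D using Finset.induction_on with
  | empty => exact ⟨S, fun τ h => absurd h (Finset.notMem_empty _)⟩
  | insert w D hw ih =>
    obtain ⟨S₁, h₁⟩ := ih
    obtain ⟨S₂, h₂, h₃⟩ := block' S₁ w δ hδ
    refine ⟨S₂, fun τ hτ => ?_⟩
    rcases Finset.mem_insert.mp hτ with h | h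
    · exact h₂ τ h
    · refine h₃ (S₂.cls τ) (fun h' => hw (h' ▸ h)) (fun τ₁ h1 => h₁ τ₁ (h1 ▸ h)) τ rfl

theorem exists_sys (G : Type) [Group G] [Fintype G] (r c : ℕ) (hc : 0 < c)
    (σ : Fin r → Fin r → G) (δ : ℝ) (hδ : 0 < δ) :
    ∃ (N : ℕ) (S : Sys G r N c σ), ∀ τ, S.psi τ ≤ δ := by
  have : Nonempty (Fin c) := ⟨⟨0, hc⟩⟩
  obtain ⟨N, -, hN⟩ := Pool.Agent.Lib.Ramsey.finite_ramsey (Fin c) r
  let S : Sys G r N c σ :=
    { U := Unit
      V := Fin N
      E := Fin N × Fin N
      Q := {g : Fin r → Fin N // StrictMono g}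
      cls := id
      src := Prod.fst
      tgt := Prod.snd
      W := fun _ _ => 1
      vq := fun q => q.1
      eq := fun q i j => (q.1 i, q.1 j)
      R := fun _ _ => 1
      H := fun _ _ => univ
      hsrc := fun _ _ _ _ => rfl
      htgt := fun _ _ _ _ => rfl
      hinj := fun q i j h => q.2.injective h
      hH := fun _ _ _ _ _ _ _ _ => Or.inr (mem_univ _)
      ramsey := by
        intro χ
        obtain ⟨g, hg, k, hk⟩ := hN (fun a b => χ (a, b))
        exact ⟨⟨g, hg⟩, k, hk⟩ }
  obtain ⟨S', h⟩ := all_blocks S δ hδ univ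
  exact ⟨N, S', fun τ => h τ (mem_univ _)⟩

end Pool.Agent.Work.MP_90c2fd_co
end

-- merged part: Pool.Agent.Work.MP_90c2fd_co.Final
section
/-! The last levels: edge states become vertex colours; a Ramsey family of almost `1/r`-dense
sets. -/

set_option autoImplicit false

namespace Pool.Agent.Work.MP_90c2fd_co

open Classical Finset
open scoped BigOperators

theorem exists_sigma (r : ℕ) : ∃ σ : Fin (r + 2) → Fin (r + 2) → Equiv.Perm (Fin (r + 2)),
    ∀ i j, i ≠ j → σ i j 0 = i ∧ σ i j 1 = j := by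
  have : ∀ i j : Fin (r + 2), ∃ s : Equiv.Perm (Fin (r + 2)), i ≠ j → s 0 = i ∧ s 1 = j := by
    intro i j
    by_cases h : i = j
    · exact ⟨1, fun h' => absurd h h'⟩
    · refine ⟨Equiv.swap (Equiv.swap 0 i 1) j * Equiv.swap 0 i, fun _ => ⟨?_, ?_⟩⟩
      · simp only [Equiv.Perm.coe_mul, Function.comp_apply, Equiv.swap_apply_left]
        apply Equiv.swap_apply_of_ne_of_ne _ h
        intro h2
        have h3 : Equiv.swap 0 i 0 = Equiv.swap 0 i 1 := by
          rw [Equiv.swap_apply_left]; exact h2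
        exact absurd ((Equiv.swap 0 i).injective h3) (by simp)
      · simp only [Equiv.Perm.coe_mul, Function.comp_apply, Equiv.swap_apply_left]
  choose σ hσ using this
  exact ⟨σ, hσ⟩

theorem dns_exists_le {α ι : Type} [Fintype α] [Fintype ι] (P : α → Prop) (Q : ι → α → Prop)
    (ε : ℝ) (h : ∀ a, P a → ∃ j, Q j a) (hQ : ∀ j, dns (Q j) ≤ ε) :
    dns P ≤ Fintype.card ι * ε := by
  calc dns P ≤ 𝔼 a, ∑ j, (if Q j a then (1 : ℝ) else 0) := by
        rw [dns_def]
        apply Finset.expect_le_expect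
        intro a _
        split_ifs with ha
        · obtain ⟨j, hj⟩ := h a ha
          have := Finset.single_le_sum (f := fun j => if Q j a then (1 : ℝ) else 0)
            (s := univ) (fun j _ => by split_ifs <;> norm_num) (mem_univ j)
          simpa [hj] using this
        · exact Finset.sum_nonneg (fun j _ => by split_ifs <;> norm_num)
    _ = ∑ j, dns (Q j) := by
        rw [Finset.expect_sum_comm]
        rfl
    _ ≤ ∑ _j : ι, ε := Finset.sum_le_sum (fun j _ => hQ j)
    _ = _ := by simp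

theorem dns_not {α : Type} [Fintype α] [Nonempty α] (P : α → Prop) :
    dns P = 1 - dns (fun a => ¬ P a) := by
  rw [eq_sub_iff_add_eq, dns_def, dns_def, ← Finset.expect_add_distrib]
  have : ∀ a, ((if P a then (1 : ℝ) else 0) + if ¬ P a then (1 : ℝ) else 0) = 1 := by
    intro a; by_cases h : P a <;> simp [h]
  simp only [this]
  exact Finset.expect_const Finset.univ_nonempty _

theorem sum_lt_ite {n : ℕ} (p : Fin n) :
    ∑ j : Fin n, (if j < p then (1 : ℤ) else 0) = (p.val : ℤ) := by
  rw [Finset.sum_boole]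
  have : (univ.filter (fun j : Fin n => j < p)) = Finset.Iio p := by
    ext j; simp
  rw [this, Fin.card_Iio]

theorem frac_ramsey (r c : ℕ) (hc : 0 < c) (η : ℝ) (hη : 0 < η) :
    ∃ (Ω : Type) (_ : Fintype Ω) (_ : Nonempty Ω), ∀ χ : Finset Ω → Finset Ω → Fin c,
      ∃ S : Fin (r + 2) → Finset Ω,
        (∀ i, (1 - η) * Fintype.card Ω ≤ ((r : ℝ) + 2) * (S i).card) ∧
        (∀ i j, i < j → Disjoint (S i) (S j)) ∧
        ∃ k, ∀ i j, i < j → χ (S i) (S j) = k := by
  obtain ⟨σ, hσ⟩ := exists_sigma r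
  obtain ⟨N, S, hS⟩ := exists_sys (Equiv.Perm (Fin (r + 2))) (r + 2) c hc σ (η / 2) (half_pos hη)
  obtain ⟨A, B, Λ, _, _, _, _, lo, hi, t, good, hgood, hbad, hram⟩ :=
    exists_gadget (S.U × Fin (r + 2)) (S.E → Fin c) (η / 2 / (r + 2)) (by positivity)
  let act : S.V → S.U → Prop := fun τ u => S.H τ u = ∅
  let win : Fin (r + 2) → Fin (r + 2) → A ⊕ B → A := fun p j z =>
    Sum.elim id (fun b => if j < p then lo b else hi b) z
  let tt : Option A → Λ → ℤ := fun o l => o.elim 0 (fun a => t a l)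
  let gg : Option A → Λ → Prop := fun o l => ∃ a, o = some a ∧ good a l
  let kap : (S.U × Fin (r + 2) → Option A) → S.U × Λ → ZMod (r + 2) := fun x p =>
    ((∑ j, tt (x (p.1, j)) p.2 : ℤ) : ZMod (r + 2))
  let Sset : (S.U × Fin (r + 2) → Option A) → Finset ((S.U × Λ) × ZMod (r + 2)) := fun x =>
    univ.filter (fun ω => (∀ j, gg (x (ω.1.1, j)) ω.1.2) ∧ kap x ω.1 = ω.2)
  let xs : S.E → (S.U × Fin (r + 2) → A ⊕ B) → (S.U × Fin (r + 2) → Option A) := fun e z p =>
    if act (S.src e) p.1 then some (win (S.W e p.1 0) p.2 (z p)) else none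
  let xt : S.E → (S.U × Fin (r + 2) → A ⊕ B) → (S.U × Fin (r + 2) → Option A) := fun e z p =>
    if act (S.tgt e) p.1 then some (win (S.W e p.1 1) p.2 (z p)) else none
  let full : S.E → S.U × Fin (r + 2) → Prop := fun e p =>
    act (S.src e) p.1 ∧ act (S.tgt e) p.1 ∧ ¬ (p.2 < S.W e p.1 0 ↔ p.2 < S.W e p.1 1)
  refine ⟨(S.U × Λ) × ZMod (r + 2), inferInstance, inferInstance, fun χ => ?_⟩
  obtain ⟨y, hy⟩ := hram (fun z e => χ (Sset (xs e z)) (Sset (xt e z)))
  obtain ⟨q, k, hq⟩ := S.ramsey (fun e =>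
    χ (Sset (xs e (fun p => pick lo hi (y p) (full e p) False)))
      (Sset (xt e (fun p => pick lo hi (y p) (full e p) False))))
  have hp : ∀ u, ∃ p : Fin (r + 2) → Fin (r + 2), ∀ i j, i < j → act (S.vq q i) u →
      act (S.vq q j) u → S.W (S.eq q i j) u 0 = p i ∧ S.W (S.eq q i j) u 1 = p j := by
    intro u
    by_cases h : ∃ i j, i < j ∧ ∀ l, act (S.vq q l) u → l = i ∨ l = j
    · obtain ⟨i, j, hij, hl⟩ := h
      refine ⟨fun l => if l = i then S.W (S.eq q i j) u 0 else S.W (S.eq q i j) u 1,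
        fun i' j' hij' h1 h2 => ?_⟩
      have e1 : i' = i := by
        rcases hl i' h1 with h3 | h3
        · exact h3
        · rcases hl j' h2 with h4 | h4
          · rw [h3, h4] at hij'; exact absurd (hij.trans hij') (lt_irrefl _)
          · rw [h3, h4] at hij'; exact absurd hij' (lt_irrefl _)
      have e2 : j' = j := by
        rcases hl j' h2 with h4 | h4
        · rw [e1, h4] at hij'; exact absurd hij' (lt_irrefl _)
        · exact h4
      subst e1 e2
      simp [hij.ne']
    · refine ⟨S.R q u, fun i j hij _ _ => ?_⟩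
      have h2 : ∃ l, act (S.vq q l) u ∧ l ≠ i ∧ l ≠ j := by
        by_contra h3
        apply h
        refine ⟨i, j, hij, fun l hl => ?_⟩
        by_contra h4
        exact h3 ⟨l, hl, fun h5 => h4 (Or.inl h5), fun h5 => h4 (Or.inr h5)⟩
      obtain ⟨l, hl, hli, hlj⟩ := h2
      have h3 : S.W (S.eq q i j) u * (σ i j)⁻¹ * (S.R q u)⁻¹ = 1 := by
        rcases S.hH q i j l u hij hli hlj with h4 | h4
        · exact h4
        · rw [hl] at h4; exact absurd h4 (Finset.notMem_empty _)
      have h4 : S.W (S.eq q i j) u = S.R q u * σ i j := by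
        rw [mul_inv_eq_one, mul_inv_eq_iff_eq_mul] at h3
        exact h3
      rw [h4]
      simp [(hσ i j hij.ne).1, (hσ i j hij.ne).2]
  choose p hp using hp
  let x : Fin (r + 2) → (S.U × Fin (r + 2) → Option A) := fun i pt =>
    if act (S.vq q i) pt.1 then some (if pt.2 < p pt.1 i then lo (y pt) else hi (y pt)) else none
  refine ⟨fun i => Sset (x i), fun i => ?_, fun i j hij => ?_, k, fun i j hij => ?_⟩
  · -- size
    have h1 : (Sset (x i)).card =
        (univ.filter (fun ω : S.U × Λ => ∀ j, gg (x i (ω.1, j)) ω.2)).card := by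
      symm
      apply Finset.card_bij (fun ω _ => (ω, kap (x i) ω))
      · intro ω hω
        simp only [Sset, mem_filter, mem_univ, true_and] at hω ⊢
        exact ⟨hω, trivial⟩
      · intro a _ b _ h
        exact congrArg Prod.fst h
      · rintro ⟨ω, ρ⟩ h
        simp only [Sset, mem_filter, mem_univ, true_and] at h
        refine ⟨ω, ?_, ?_⟩
        · simp only [mem_filter, mem_univ, true_and]; exact h.1
        · rw [h.2]
    have h2 : dns (fun ω : S.U × Λ => ¬ ∀ j, gg (x i (ω.1, j)) ω.2) ≤ η := by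
      have h3 := dns_or_le (fun ω : S.U × Λ => ¬ ∀ j, gg (x i (ω.1, j)) ω.2)
        (fun ω => S.H (S.vq q i) ω.1 ≠ ∅)
        (fun ω => ∃ j, ¬ good (if j < p ω.1 i then lo (y (ω.1, j)) else hi (y (ω.1, j))) ω.2) (by
          intro ω hω
          by_cases ha : act (S.vq q i) ω.1
          · right
            by_contra h4
            apply hω
            intro j
            refine ⟨if j < p ω.1 i then lo (y (ω.1, j)) else hi (y (ω.1, j)),
              by simp only [x, if_pos ha], ?_⟩
            by_contra h5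
            exact h4 ⟨j, h5⟩
          · left; exact ha)
      have h4 : dns (fun ω : S.U × Λ => S.H (S.vq q i) ω.1 ≠ ∅) ≤ η / 2 := by
        refine le_trans (le_of_eq ?_) (hS (S.vq q i))
        rw [dns_def, expect_prod, Sys.psi, dns_def]
        congr 1
        funext u
        by_cases h5 : S.H (S.vq q i) u = ∅ <;> simp [h5]
      have h5 := dns_exists_le
        (fun ω : S.U × Λ =>
          ∃ j, ¬ good (if j < p ω.1 i then lo (y (ω.1, j)) else hi (y (ω.1, j))) ω.2)
        (fun (j : Fin (r + 2)) (ω : S.U × Λ) =>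
          ¬ good (if j < p ω.1 i then lo (y (ω.1, j)) else hi (y (ω.1, j))) ω.2)
        (η / 2 / (r + 2)) (fun _ h => h) (by
          intro j
          rw [dns_def, expect_prod]
          apply Finset.expect_le Finset.univ_nonempty
          intro u _
          have := hbad (if j < p u i then lo (y (u, j)) else hi (y (u, j)))
          rw [dns_def] at this
          exact this)
      rw [Fintype.card_fin] at h5
      push_cast at h5
      rw [mul_div_cancel₀ _ (by positivity)] at h5
      linarith only [h3, h4, h5]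
    have h6 := dns_not (fun ω : S.U × Λ => ∀ j, gg (x i (ω.1, j)) ω.2)
    rw [dns_eq, ← h1] at h6
    have h7 : (0 : ℝ) < Fintype.card (S.U × Λ) := by exact_mod_cast Fintype.card_pos
    have h8 : (1 - η) * (Fintype.card (S.U × Λ) : ℝ) ≤ (Sset (x i)).card := by
      rw [← le_div_iff₀ h7, h6]; linarith only [h2]
    rw [Fintype.card_prod _ (ZMod (r + 2)), ZMod.card]
    push_cast
    have h9 : (0 : ℝ) < (r : ℝ) + 2 := by positivity
    linarith only [h8, mul_nonneg_of_nonpos_of_nonpos (Mathlib.Tactic.Linarith.sub_nonpos_of_le (Mathlib.Tactic.Linarith.natCast_nonneg ℝ r)) (Mathlib.Tactic.Linarith.sub_nonpos_of_le h8)]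
  · -- disjoint
    rw [Finset.disjoint_left]
    rintro ⟨⟨u, l⟩, ρ⟩ h1 h2
    simp only [Sset, mem_filter, mem_univ, true_and] at h1 h2
    have key : ∀ i, (∀ j, gg (x i (u, j)) l) → act (S.vq q i) u ∧
        kap (x i) (u, l) = ((∑ j, t (hi (y (u, j))) l + (p u i).val : ℤ) : ZMod (r + 2)) := by
      intro i hi'
      have ha : act (S.vq q i) u := by
        by_contra ha
        obtain ⟨a, h3, -⟩ := hi' 0
        simp [x, ha] at h3
      refine ⟨ha, ?_⟩
      simp only [kap]
      congr 1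
      rw [← sum_lt_ite, ← Finset.sum_add_distrib]
      apply Finset.sum_congr rfl
      intro j _
      obtain ⟨a, h3, h4⟩ := hi' j
      simp only [x, if_pos ha, Option.some.injEq] at h3
      simp only [x, if_pos ha, tt, Option.elim]
      by_cases h5 : j < p u i
      · rw [if_pos h5] at h3
        rw [if_pos h5, if_pos h5]
        exact hgood _ _ (h3 ▸ h4)
      · rw [if_neg h5, if_neg h5, add_zero]
    obtain ⟨a1, k1⟩ := key i h1.1
    obtain ⟨a2, k2⟩ := key j h2.1
    have h3 : ((p u i).val : ZMod (r + 2)) = ((p u j).val : ZMod (r + 2)) := by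
      have := k1.symm.trans (h1.2.trans (h2.2.symm.trans k2))
      push_cast at this
      exact add_left_cancel this
    rw [ZMod.natCast_eq_natCast_iff', Nat.mod_eq_of_lt (p u i).2, Nat.mod_eq_of_lt (p u j).2] at h3
    obtain ⟨e1, e2⟩ := hp u i j hij a1 a2
    have h4 : S.W (S.eq q i j) u 0 = S.W (S.eq q i j) u 1 := by
      rw [e1, e2]; exact Fin.ext h3
    exact absurd ((S.W (S.eq q i j) u).injective h4) (by simp)
  · -- colour
    rw [← hq i j hij]
    let s : S.U × Fin (r + 2) → Prop := fun pt =>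
      if act (S.vq q i) pt.1 then pt.2 < p pt.1 i else pt.2 < p pt.1 j
    have h1 := congrFun (hy s (fun _ => False) (full (S.eq q i j))) (S.eq q i j)
    rw [← h1]
    have e1 : xs (S.eq q i j) (fun u => pick lo hi (y u) (full (S.eq q i j) u) (s u)) = x i := by
      funext pt
      simp only [xs, x, S.hsrc q i j hij]
      by_cases ha : act (S.vq q i) pt.1
      · rw [if_pos ha, if_pos ha]
        congr 1
        by_cases hf : full (S.eq q i j) pt
        · rw [pick_full _ _ _ _ hf]
          have ha' : act (S.vq q j) pt.1 := by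
            have := hf.2.1
            rwa [S.htgt q i j hij] at this
          simp only [win, Sum.elim_inr, (hp pt.1 i j hij ha ha').1]
        · by_cases h2 : pt.2 < p pt.1 i
          · rw [pick_lo _ _ _ hf (by simp only [s, if_pos ha]; exact h2), if_pos h2]
            rfl
          · rw [pick_hi _ _ _ hf (by simp only [s, if_pos ha]; exact h2), if_neg h2]
            rfl
      · rw [if_neg ha, if_neg ha]
    have e2 : xt (S.eq q i j) (fun u => pick lo hi (y u) (full (S.eq q i j) u) (s u)) = x j := by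
      funext pt
      simp only [xt, x, S.htgt q i j hij]
      by_cases ha' : act (S.vq q j) pt.1
      · rw [if_pos ha', if_pos ha']
        congr 1
        by_cases hf : full (S.eq q i j) pt
        · rw [pick_full _ _ _ _ hf]
          have ha : act (S.vq q i) pt.1 := by
            have := hf.1
            rwa [S.hsrc q i j hij] at this
          simp only [win, Sum.elim_inr, (hp pt.1 i j hij ha ha').2]
        · have hs : s pt ↔ pt.2 < p pt.1 j := by
            by_cases ha : act (S.vq q i) pt.1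
            · simp only [s, if_pos ha]
              by_contra h3
              apply hf
              refine ⟨by rw [S.hsrc q i j hij]; exact ha, by rw [S.htgt q i j hij]; exact ha', ?_⟩
              rw [(hp pt.1 i j hij ha ha').1, (hp pt.1 i j hij ha ha').2]
              exact h3
            · simp only [s, if_neg ha]
          by_cases h2 : pt.2 < p pt.1 j
          · rw [pick_lo _ _ _ hf (hs.mpr h2), if_pos h2]
            rfl
          · rw [pick_hi _ _ _ hf (fun h => h2 (hs.mp h)), if_neg h2]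
            rfl
      · rw [if_neg ha', if_neg ha']
    rw [e1, e2]

end Pool.Agent.Work.MP_90c2fd_co
end

-- merged part: Pool.Agent.Work.MP_90c2fd_co.Hedge.VSys
section
/-! The vertex gadget for an arbitrary finite group. -/

set_option autoImplicit false

namespace Pool.Agent.Work.MP_90c2fd_co

open Classical Finset
open scoped BigOperators

/-- The whole object or the vertex selected by a group element. -/
noncomputable def vpick {G A B : Type} (sel : B → G → A) (b : B) (f : Prop) (h : G) : A ⊕ B :=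
  if f then Sum.inr b else Sum.inl (sel b h)

/-- A vertex system: vertices `A`, families `B` of vertices indexed by the group, random states. -/
structure VSys (G : Type) [Group G] (U C : Type) where
  A : Type
  B : Type
  L : Type
  [fA : Finite A]
  [fB : Finite B]
  [fL : Fintype L]
  [neL : Nonempty L]
  sel : B → G → A
  X : A → L → G
  R : B → L → G
  H : A → L → Finset G
  hH : ∀ b h l, X (sel b h) l * h⁻¹ * (R b l)⁻¹ = 1 ∨ X (sel b h) l * h⁻¹ * (R b l)⁻¹ ∈ H (sel b h) l
  ramsey : ∀ χ : (U → A ⊕ B) → C, ∃ y : U → B, ∀ (f : U → Prop) (s s' : U → G),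
    χ (fun u => vpick sel (y u) (f u) (s u)) = χ (fun u => vpick sel (y u) (f u) (s' u))

attribute [instance] VSys.fA VSys.fB VSys.fL VSys.neL

variable {G : Type} [Group G] [Fintype G] {U C : Type} [Finite U] [Finite C] [Nonempty U]
  [Nonempty C]

theorem vlevel (S : VSys G U C) (ε : ℝ) (hε : 0 < ε) {a : ℝ}
    (ha : ∀ τ, 𝔼 l, ((S.H τ l).card : ℝ) ≤ a) : ∃ S' : VSys G U C,
      ∀ τ, 𝔼 l, ((S'.H τ l).card : ℝ) ≤ (1 - 1 / (Fintype.card G : ℝ)) * a + ε := by
  have hG : (0 : ℝ) < Fintype.card G := by exact_mod_cast Fintype.card_pos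
  obtain ⟨A, B, Λ, _, _, _, _, lo, hi, t, good, hgood, hbad, hram⟩ :=
    exists_gadget (U × (S.L × G)) ((U → S.A ⊕ S.B) → C) (ε / Fintype.card G) (by positivity)
  obtain ⟨b₀⟩ : Nonempty B := by
    obtain ⟨y, -⟩ := hram fun _ => Classical.arbitrary _
    exact ⟨y (Classical.arbitrary _)⟩
  let d : S.B → G → S.L → G := fun b h l => S.X (S.sel b h) l * h⁻¹ * (S.R b l)⁻¹
  let sel : S.B × (S.L × G → B) → G → S.A × (S.L × G → A) := fun b h =>
    (S.sel b.1 h, fun p => if p.2 * d b.1 h p.1 = 1 then lo (b.2 p) else hi (b.2 p))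
  let HH : S.A × (S.L × G → A) → (S.L × G) × Λ → Finset G := fun τ x =>
    if good (τ.2 x.1) x.2 then ((S.H τ.1 x.1.1).erase x.1.2⁻¹).image
      (fun h => x.1.2 ^ t (τ.2 x.1) x.2 * h * (x.1.2 ^ t (τ.2 x.1) x.2)⁻¹) else univ
  let comb : (U × (S.L × G) → A ⊕ B) → (U → S.A ⊕ S.B) →
      U → (S.A × (S.L × G → A)) ⊕ (S.B × (S.L × G → B)) := fun z w u =>
    Sum.map (fun a => (a, fun p => Sum.elim id hi (z (u, p))))
      (fun b => (b, fun p => Sum.elim (fun _ => b₀) id (z (u, p)))) (w u)
  let S' : VSys G U C :=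
    { A := S.A × (S.L × G → A)
      B := S.B × (S.L × G → B)
      L := (S.L × G) × Λ
      sel := sel
      X := fun τ x => x.1.2 ^ t (τ.2 x.1) x.2 * S.X τ.1 x.1.1
      R := fun b x => x.1.2 ^ t (hi (b.2 x.1)) x.2 * S.R b.1 x.1.1
      H := HH
      hH := by
        rintro ⟨b, y⟩ h ⟨⟨l, g⟩, lam⟩
        have key : ∀ n : ℤ, g ^ n * S.X (S.sel b h) l * h⁻¹ *
            (g ^ t (hi (y (l, g))) lam * S.R b l)⁻¹ =
            g ^ n * d b h l * (g ^ t (hi (y (l, g))) lam)⁻¹ := by
          intro n; simp only [d]; group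
        have hold : d b h l = 1 ∨ d b h l ∈ _ := S.hH b h l
        simp only [sel, key, HH]
        by_cases h1 : g * d b h l = 1
        · simp only [if_pos h1]
          by_cases hg : good (lo (y (l, g))) lam
          · left
            rw [hgood _ _ hg, zpow_add_one, mul_assoc (g ^ _) g, h1]
            group
          · right
            rw [if_neg hg]
            exact mem_univ _
        · simp only [if_neg h1]
          rcases hold with h2 | h2
          · left; rw [h2]; group
          · right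
            split_ifs
            · refine mem_image.2 ⟨d b h l, mem_erase.2 ⟨fun h3 => h1 ?_, h2⟩, rfl⟩
              rw [h3]; group
            · exact mem_univ _
      ramsey := by
        intro χ
        obtain ⟨y₀, hy₀⟩ := hram fun z w => χ (comb z w)
        obtain ⟨y₁, hy₁⟩ := S.ramsey fun w =>
          χ (comb (fun p => pick lo hi (y₀ p) ((w p.1).isRight = true) False) w)
        refine ⟨fun u => (y₁ u, fun p => y₀ (u, p)), fun f s s' => ?_⟩
        have e : ∀ s : U → G, χ (fun u => vpick sel (y₁ u, fun p => y₀ (u, p)) (f u) (s u)) =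
            χ (comb (fun p => pick lo hi (y₀ p)
              ((vpick S.sel (y₁ p.1) (f p.1) (s p.1)).isRight = true) False)
              fun u => vpick S.sel (y₁ u) (f u) (s u)) := by
          intro s
          refine Eq.trans (congrArg χ (funext fun u => ?_)) (congrFun (hy₀
            (fun p => p.2.2 * d (y₁ p.1) (s p.1) p.2.1 = 1) (fun _ => False)
            fun p => (vpick S.sel (y₁ p.1) (f p.1) (s p.1)).isRight = true)
            fun u => vpick S.sel (y₁ u) (f u) (s u))
          by_cases h : f u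
          · simp [comb, vpick, h, pick]
          · simp only [comb, vpick, h, if_false, Sum.map_inl, sel, Sum.isRight_inl, pick,
              Bool.false_eq_true]
            refine congrArg (fun z => Sum.inl (_, z)) (funext fun p => ?_)
            split_ifs <;> rfl
        rw [e s, e s']
        exact hy₁ f s s' }
  refine ⟨S', fun τ => ?_⟩
  have h1 : 0 ≤ 1 - 1 / (Fintype.card G : ℝ) := by
    rw [sub_nonneg, div_le_one hG]
    exact_mod_cast Fintype.card_pos
  change 𝔼 x : (S.L × G) × Λ, ((HH τ x).card : ℝ) ≤ _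
  have hb : ∀ p : S.L × G, 𝔼 lam : Λ, ((HH τ (p, lam)).card : ℝ) ≤
      (((S.H τ.1 p.1).erase p.2⁻¹).card : ℝ) + ε := by
    intro p
    have h2 := mul_le_mul_of_nonneg_left (hbad (τ.2 p)) hG.le
    rw [mul_div_cancel₀ _ hG.ne'] at h2
    calc _ ≤ 𝔼 lam : Λ, ((((S.H τ.1 p.1).erase p.2⁻¹).card : ℝ) +
          (Fintype.card G : ℝ) * (if ¬ good (τ.2 p) lam then (1 : ℝ) else 0)) := by
          refine expect_le_expect fun lam _ => ?_
          by_cases hg : good (τ.2 p) lam
          · simp only [HH, hg, if_true, not_true, if_false, mul_zero, add_zero]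
            exact_mod_cast card_image_le
          · simp only [HH, hg, if_false, not_false_iff, if_true, mul_one, card_univ]
            exact le_add_of_nonneg_left (Nat.cast_nonneg _)
      _ = (((S.H τ.1 p.1).erase p.2⁻¹).card : ℝ) +
          (Fintype.card G : ℝ) * dns (fun lam => ¬ good (τ.2 p) lam) := by
          rw [expect_add_distrib, expect_const univ_nonempty, ← mul_expect, dns_def]
      _ ≤ _ := by linarith only [h2]
  rw [expect_prod]
  calc _ ≤ 𝔼 p : S.L × G, ((((S.H τ.1 p.1).erase p.2⁻¹).card : ℝ) + ε) :=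
        expect_le_expect fun p _ => hb p
    _ = (1 - 1 / (Fintype.card G : ℝ)) * (𝔼 l, ((S.H τ.1 l).card : ℝ)) + ε := by
        rw [expect_add_distrib, expect_const univ_nonempty, expect_prod]
        simp only [expect_erase]
        rw [← mul_expect]
    _ ≤ _ := by linarith only [ha, h1, mul_le_mul_of_nonneg_left (ha τ.1) h1]

theorem vblock (k : ℕ) : ∀ η : ℝ, 0 < η → ∃ S : VSys G U C, ∀ τ,
    𝔼 l, ((S.H τ l).card : ℝ) ≤ (1 - 1 / (Fintype.card G : ℝ)) ^ k * Fintype.card G + η := by
  have hG : (0 : ℝ) < Fintype.card G := by exact_mod_cast Fintype.card_pos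
  induction k with
  | zero =>
    intro η hη
    refine ⟨{ A := Unit, B := Unit, L := Unit, sel := fun _ _ => (), X := fun _ _ => 1
              R := fun _ _ => 1, H := fun _ _ => univ, hH := fun _ _ _ => Or.inr (mem_univ _)
              ramsey := fun _ => ⟨fun _ => (), fun _ _ _ => rfl⟩ }, fun τ => ?_⟩
    refine expect_le univ_nonempty fun _ _ => ?_
    change ((univ : Finset G).card : ℝ) ≤ _
    rw [pow_zero, one_mul, card_univ]
    linarith
  | succ k ih =>
    intro η hη
    obtain ⟨S₁, h3⟩ := ih (η / 2) (half_pos hη)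
    obtain ⟨S₂, h5⟩ := vlevel S₁ (η / 2) (half_pos hη) h3
    refine ⟨S₂, fun τ => (h5 τ).trans ?_⟩
    have h8 : (1 - 1 / (Fintype.card G : ℝ)) * (η / 2) ≤ η / 2 :=
      mul_le_of_le_one_left (half_pos hη).le (sub_le_self _ (by positivity))
    rw [mul_add, ← mul_assoc, ← pow_succ']
    linarith only [h8]

theorem exists_vsys (G : Type) [Group G] [Fintype G] (U C : Type) [Finite U] [Finite C] [Nonempty U]
    [Nonempty C] (δ : ℝ) (hδ : 0 < δ) :
    ∃ S : VSys G U C, ∀ τ, dns (fun l => S.H τ l ≠ ∅) ≤ δ := by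
  have hG : (0 : ℝ) < Fintype.card G := by exact_mod_cast Fintype.card_pos
  have h2 : 1 - 1 / (Fintype.card G : ℝ) < 1 := sub_lt_self _ (by positivity)
  obtain ⟨k, hk⟩ := exists_pow_lt_of_lt_one (x := δ / 2 / Fintype.card G) (by positivity) h2
  obtain ⟨S, h3⟩ := vblock (G := G) (U := U) (C := C) k (δ / 2) (half_pos hδ)
  refine ⟨S, fun τ => le_trans ?_ ((h3 τ).trans ?_)⟩
  · rw [dns]
    refine expect_le_expect fun l _ => ?_
    split_ifs with h
    · exact_mod_cast card_pos.2 (nonempty_iff_ne_empty.2 h)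
    · positivity
  · rw [lt_div_iff₀ hG] at hk
    linarith only [hk]

end Pool.Agent.Work.MP_90c2fd_co
end

-- merged part: Pool.Agent.Work.MP_90c2fd_co.Hedge.Frac
section
/-! A Ramsey family of sets that follows a given multiple colouring. -/

set_option autoImplicit false

namespace Pool.Agent.Work.MP_90c2fd_co

open Classical Finset
open scoped BigOperators

theorem frac_ind {r c : ℕ} (hc : 0 < c) (hr : 3 ≤ r) (H : SimpleGraph (Fin r)) {β Z : Type}
    [Fintype β] [Fintype Z] [Nonempty Z] (f : Fin r → β → Z) (hf : ∀ i, Function.Injective (f i))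
    (hd : ∀ i j, H.Adj i j → ∀ x y, f i x ≠ f j y) {i₀ j₀ : Fin r} (h₀ : H.Adj i₀ j₀) (η : ℝ)
    (hη : 0 < η) (hη' : r * η < 1) :
    ∃ (Ω : Type) (_ : Fintype Ω) (_ : Nonempty Ω), ∀ χ : Finset Ω → Finset Ω → Fin c,
      ∃ S : Fin r → Finset Ω,
        (∀ i, (1 - η) * Fintype.card β * Fintype.card Ω ≤ (Fintype.card Z : ℝ) * (S i).card) ∧
        (∀ i j, i < j → H.Adj i j → Disjoint (S i) (S j)) ∧
        (∃ ι : Z → Ω, ∀ i z, ι z ∈ S i ↔ ∃ x, f i x = z) ∧
        ∃ k, ∀ i j, i < j → H.Adj i j → χ (S i) (S j) = k := by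
  have hσ : ∀ i j, ∃ s : Equiv.Perm Z, H.Adj i j →
      (∀ x, s (f i₀ x) = f i x) ∧ ∀ x, s (f j₀ x) = f j x := fun i j => by
    by_cases h : H.Adj i j
    · obtain ⟨s, hs⟩ := Equiv.Perm.exists_extending_pair _ _
        ((hf i₀).sumElim (hf j₀) (hd _ _ h₀)) ((hf i).sumElim (hf j) (hd _ _ h))
      exact ⟨s, fun _ => ⟨fun x => hs (Sum.inl x), fun x => hs (Sum.inr x)⟩⟩
    · exact ⟨1, fun h' => absurd h' h⟩
  choose σ hσ using hσ
  have hsec : ∀ p : β → Z, ∃ s : Equiv.Perm Z, Function.Injective p → ∀ x, s (f i₀ x) = p x :=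
    fun p => by
      by_cases h : Function.Injective p
      · obtain ⟨s, hs⟩ := Equiv.Perm.exists_extending_pair _ _ (hf i₀) h
        exact ⟨s, fun _ => hs⟩
      · exact ⟨1, fun h' => absurd h' h⟩
  choose sec hsec using hsec
  have : Nonempty (Fin c) := ⟨⟨0, hc⟩⟩
  obtain ⟨N, S, hS⟩ := exists_sys (Equiv.Perm Z) r c hc σ (η / 2) (half_pos hη)
  obtain ⟨V, hV⟩ := exists_vsys (Equiv.Perm Z) S.U (S.E → Fin c) (η / 2) (half_pos hη)
  let act : S.V → S.U → Prop := fun τ u => S.H τ u = ∅
  let Sset : (S.U → Option V.A) → Finset ((S.U × V.L) × Z) := fun x => univ.filter fun ω =>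
    ∃ a, x ω.1.1 = some a ∧ V.H a ω.1.2 = ∅ ∧ ∃ b, V.X a ω.1.2 (f i₀ b) = ω.2
  let xx : S.V → (S.U → β → Z) → (S.U → V.A ⊕ V.B) → S.U → Option V.A := fun τ p z u =>
    if act τ u then some (Sum.elim id (fun b => V.sel b (sec (p u))) (z u)) else none
  let full : S.E → S.U → Prop := fun e u => act (S.src e) u ∧ act (S.tgt e) u
  refine ⟨(S.U × V.L) × Z, inferInstance, inferInstance, fun χ => ?_⟩
  let col : (S.U → V.A ⊕ V.B) → S.E → Fin c := fun z e =>
    χ (Sset (xx (S.src e) (fun u x => S.W e u (f i₀ x)) z))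
      (Sset (xx (S.tgt e) (fun u x => S.W e u (f j₀ x)) z))
  obtain ⟨y, hy⟩ := V.ramsey col
  obtain ⟨q, k, hq⟩ := S.ramsey fun e => col (fun u => vpick V.sel (y u) (full e u) 1) e
  have hp : ∀ u, ∃ p : Fin r → β → Z, (∀ i, Function.Injective (p i)) ∧
      (∀ i j, i < j → H.Adj i j → act (S.vq q i) u → act (S.vq q j) u →
        (fun x => S.W (S.eq q i j) u (f i₀ x)) = p i ∧
          (fun x => S.W (S.eq q i j) u (f j₀ x)) = p j) ∧
      ((∀ l, act (S.vq q l) u) → ∀ i x, p i x = S.R q u (f i x)) := by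
    intro u
    by_cases h : ∃ i j, i < j ∧ ∀ l, act (S.vq q l) u → l = i ∨ l = j
    · obtain ⟨i, j, hij, hl⟩ := h
      refine ⟨fun l => if l = i then fun x => S.W (S.eq q i j) u (f i₀ x) else
        fun x => S.W (S.eq q i j) u (f j₀ x), fun l => ?_, fun i' j' hij' _ h1 h2 => ?_,
        fun h1 => ?_⟩
      · dsimp only
        split_ifs
        exacts [(S.W _ u).injective.comp (hf i₀), (S.W _ u).injective.comp (hf j₀)]
      · obtain ⟨rfl, rfl⟩ : i' = i ∧ j' = j := by
          rcases hl i' h1 with h3 | h3 <;> rcases hl j' h2 with h4 | h4 <;> omega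
        simp [hij.ne']
      · have h2 : (univ : Finset (Fin r)) ⊆ {i, j} := fun l _ => by simpa using hl l (h1 l)
        have h3 := (card_le_card h2).trans card_le_two
        rw [card_univ, Fintype.card_fin] at h3
        omega
    · refine ⟨fun i x => S.R q u (f i x), fun i => (S.R q u).injective.comp (hf i),
        fun i j hij ha _ _ => ?_, fun _ _ _ => rfl⟩
      obtain ⟨l, hl, hli, hlj⟩ : ∃ l, act (S.vq q l) u ∧ l ≠ i ∧ l ≠ j := by
        by_contra h3
        refine h ⟨i, j, hij, fun l hl => ?_⟩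
        by_contra h4
        exact h3 ⟨l, hl, not_or.1 h4⟩
      have h3 := (S.hH q i j l u hij hli hlj).resolve_right (by rw [hl]; exact notMem_empty _)
      rw [mul_inv_eq_one, mul_inv_eq_iff_eq_mul] at h3
      simp [h3, (hσ i j ha).1, (hσ i j ha).2]
  choose p hp1 hp2 hp3 using hp
  let x : Fin r → S.U → Option V.A := fun i u =>
    if act (S.vq q i) u then some (V.sel (y u) (sec (p u i))) else none
  let ev : Fin r → S.U × V.L → Prop := fun i ω =>
    act (S.vq q i) ω.1 ∧ V.H (V.sel (y ω.1) (sec (p ω.1 i))) ω.2 = ∅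
  have key : ∀ i ω z, (ω, z) ∈ Sset (x i) ↔ ev i ω ∧ ∃ b, V.R (y ω.1) ω.2 (p ω.1 i b) = z := by
    intro i ω z
    have h1 : V.H (V.sel (y ω.1) (sec (p ω.1 i))) ω.2 = ∅ → ∀ b,
        V.X (V.sel (y ω.1) (sec (p ω.1 i))) ω.2 (f i₀ b) = V.R (y ω.1) ω.2 (p ω.1 i b) := by
      intro h b
      have h3 := (V.hH (y ω.1) (sec (p ω.1 i)) ω.2).resolve_right
        (by rw [h]; exact notMem_empty _)
      rw [mul_inv_eq_one, mul_inv_eq_iff_eq_mul] at h3
      rw [h3, Equiv.Perm.mul_apply, hsec _ (hp1 _ _)]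
    simp only [Sset, mem_filter, mem_univ, true_and, x, ev]
    by_cases ha : act (S.vq q i) ω.1
    · simp only [ha, if_true, Option.some.injEq, exists_eq_left', true_and]
      exact and_congr_right fun h => by simp only [h1 h]
    · simp [ha]
  have hev : ∀ i, dns (fun ω => ¬ ev i ω) ≤ η := fun i => by
    have h3 := dns_or_le (fun ω => ¬ ev i ω) (fun ω => S.H (S.vq q i) ω.1 ≠ ∅)
      (fun ω => V.H (V.sel (y ω.1) (sec (p ω.1 i))) ω.2 ≠ ∅) fun ω hω => not_and_or.1 hω
    have h4 : dns (fun ω : S.U × V.L => S.H (S.vq q i) ω.1 ≠ ∅) ≤ η / 2 := by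
      refine le_trans (le_of_eq ?_) (hS (S.vq q i))
      rw [dns_def, expect_prod, Sys.psi, dns_def]
      exact expect_congr rfl fun u _ => expect_const (univ_nonempty (α := V.L))
        (if S.H (S.vq q i) u ≠ ∅ then (1 : ℝ) else 0)
    have h5 : dns (fun ω : S.U × V.L => V.H (V.sel (y ω.1) (sec (p ω.1 i))) ω.2 ≠ ∅) ≤ η / 2 := by
      rw [dns_def, expect_prod]
      exact expect_le univ_nonempty fun u _ =>
        (dns_def _).symm.trans_le (hV (V.sel (y u) (sec (p u i))))
    linarith only [h3, h4, h5]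
  refine ⟨fun i => Sset (x i), fun i => ?_, fun i j hij ha => ?_, ?_, k, fun i j hij ha => ?_⟩
  · have h1 : ((univ.filter (ev i)) ×ˢ (univ : Finset β)).card ≤ (Sset (x i)).card := by
      refine card_le_card_of_injOn (fun w => (w.1, V.R (y w.1.1) w.1.2 (p w.1.1 i w.2)))
        (fun w hw => (key i _ _).2 ⟨(mem_filter.1 (mem_product.1 hw).1).2, _, rfl⟩) ?_
      rintro ⟨ω, b⟩ - ⟨ω', b'⟩ - h
      obtain ⟨rfl, h2⟩ := Prod.mk.inj h
      exact congrArg _ (hp1 _ _ ((V.R _ _).injective h2))
    rw [card_product, card_univ] at h1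
    have h2 : ((univ.filter (ev i)).card : ℝ) * Fintype.card β ≤ (Sset (x i)).card := by
      exact_mod_cast h1
    have h6 := dns_not (ev i)
    rw [dns_eq] at h6
    have h7 : (0 : ℝ) < Fintype.card (S.U × V.L) := by exact_mod_cast Fintype.card_pos
    have h8 : (1 - η) * (Fintype.card (S.U × V.L) : ℝ) ≤ (univ.filter (ev i)).card := by
      rw [← le_div_iff₀ h7, h6]; linarith only [hev, hev i]
    rw [Fintype.card_prod _ Z, Nat.cast_mul]
    calc _ = (Fintype.card Z : ℝ) * ((1 - η) * Fintype.card (S.U × V.L) * Fintype.card β) := by ring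
      _ ≤ _ := mul_le_mul_of_nonneg_left
        ((mul_le_mul_of_nonneg_right h8 (Nat.cast_nonneg _)).trans h2) (Nat.cast_nonneg _)
  · refine disjoint_left.2 fun ⟨ω, z⟩ h1 h2 => ?_
    obtain ⟨a1, b1, h1⟩ := (key i ω z).1 h1
    obtain ⟨a2, b2, h2⟩ := (key j ω z).1 h2
    obtain ⟨e1, e2⟩ := hp2 ω.1 i j hij ha a1.1 a2.1
    have h3 := (V.R _ _).injective (h1.trans h2.symm)
    rw [← e1, ← e2] at h3
    exact hd _ _ h₀ _ _ ((S.W _ _).injective h3)
  · obtain ⟨ω, hω⟩ : ∃ ω, ∀ i, ev i ω := by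
      by_contra h
      have h1 := dns_exists_le (fun _ => True) (fun i ω => ¬ ev i ω) η
        (fun ω _ => not_forall.1 fun h' => h ⟨ω, h'⟩) hev
      rw [Fintype.card_fin, dns] at h1
      simp only [if_true, expect_const univ_nonempty] at h1
      linarith only [hη', h1]
    refine ⟨fun z => (ω, V.R (y ω.1) ω.2 (S.R q ω.1 z)), fun i z => ?_⟩
    rw [key]
    simp only [hω i, true_and, hp3 ω.1 fun l => (hω l).1, EmbeddingLike.apply_eq_iff_eq]
  · rw [← hq i j hij]
    let s : S.U → Equiv.Perm Z := fun u =>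
      if act (S.vq q i) u then sec (p u i) else sec (p u j)
    rw [← congrFun (hy (full (S.eq q i j)) s fun _ => 1) (S.eq q i j)]
    refine congrArg₂ (fun a b => χ (Sset a) (Sset b)) (funext fun u => ?_) (funext fun u => ?_)
    · simp only [xx, x, full, vpick, s, S.hsrc q i j hij, S.htgt q i j hij]
      by_cases h1 : act (S.vq q i) u
      · by_cases h2 : act (S.vq q j) u
        · simp [h1, h2, (hp2 u i j hij ha h1 h2).1]
        · simp [h1, h2]
      · simp [h1]
    · simp only [xx, x, full, vpick, s, S.hsrc q i j hij, S.htgt q i j hij]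
      by_cases h2 : act (S.vq q j) u
      · by_cases h1 : act (S.vq q i) u
        · simp [h1, h2, (hp2 u i j hij ha h1 h2).2]
        · simp [h1, h2]
      · simp [h2]

end Pool.Agent.Work.MP_90c2fd_co
end

-- merged part: Pool.Agent.Work.MP_90c2fd_co.Hedge.Main
section
/-! The induced Ramsey threshold of Kneser graphs. -/

set_option autoImplicit false

namespace Pool.Agent.Work.MP_90c2fd_co

open Classical Finset

theorem kneser_fin {r c : ℕ} (hc : 0 < c) (hr : 3 ≤ r) (H : SimpleGraph (Fin r)) {β Z : Type}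
    [Fintype β] [Fintype Z] [Nonempty Z] (f : Fin r → β → Z) (hf : ∀ i, Function.Injective (f i))
    (hd : ∀ i j, H.Adj i j → ∀ x y, f i x ≠ f j y)
    (hm : ∀ i j, ¬ H.Adj i j → ∃ x y, f i x = f j y)
    (hp : ∀ i, ∃ x, ∀ j y, f j y = f i x → j = i) {i₀ j₀ : Fin r} (h₀ : H.Adj i₀ j₀) {α : ℝ}
    (hα : (Fintype.card Z : ℝ) < α * Fintype.card β) :
    ∃ k₀ : ℕ, ∀ k : ℕ, k₀ ≤ k → ∀ m : ℕ, α * k ≤ m → IndArrows (kneserGraph m k) H c := by
  have hZ : (0 : ℝ) < Fintype.card Z := by exact_mod_cast Fintype.card_pos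
  have hβ : (0 : ℝ) ≤ Fintype.card β := Nat.cast_nonneg _
  have hβZ : (Fintype.card β : ℝ) ≤ Fintype.card Z := by
    exact_mod_cast Fintype.card_le_of_injective _ (hf i₀)
  have hα1 : 1 ≤ α := by
    by_contra h
    linarith only [hα, hβZ, h, not_le.1 h, mul_nonneg_of_nonpos_of_nonpos (Mathlib.Tactic.Linarith.sub_nonpos_of_le (Mathlib.Tactic.Linarith.natCast_nonneg ℝ (Fintype.card β))) (le_of_lt (Mathlib.Tactic.Linarith.sub_neg_of_lt (lt_of_not_ge h)))]
  generalize hb : (Fintype.card β : ℝ) = b at hα hβ hβZ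
  generalize ha : (Fintype.card Z : ℝ) = a at hα hZ hβZ
  obtain ⟨η, h1, h2, h3, h4⟩ : ∃ η : ℝ, 0 < η ∧ r * η < 1 ∧ η ≤ 1 ∧
      η * (α * b) ≤ (α * b - a) / 2 := by
    have e0 : 0 < α * b := hZ.trans hα
    have e1 : (0 : ℝ) < r + 1 := by positivity
    refine ⟨min (1 / (r + 1)) ((α * b - a) / 2 / (α * b)), lt_min (by positivity)
      (div_pos (by linarith only [hα]) e0), ?_, (min_le_left _ _).trans ?_,
      (le_div_iff₀ e0).1 (min_le_right _ _)⟩
    · refine (mul_le_mul_of_nonneg_left (min_le_left _ _) (Nat.cast_nonneg r)).trans_lt ?_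
      rw [mul_one_div, div_lt_one e1]
      linarith
    · rw [div_le_one e1]
      linarith [Nat.cast_nonneg (α := ℝ) r]
  obtain ⟨Ω, _, _, hΩ⟩ := frac_ind hc hr H f hf hd h₀ η h1 h2
  rw [ha, hb] at hΩ
  set D := Fintype.card Ω with hD
  have hD0 : 0 < D := Fintype.card_pos
  obtain ⟨k₁, hk₁⟩ := exists_nat_ge (b * D / ((α * b - a) / 2))
  refine ⟨max k₁ D, fun k hk m hkm χ => ?_⟩
  have hDk : D ≤ k := (le_max_right _ _).trans hk
  have hk1 : b * D ≤ k * ((α * b - a) / 2) := by
    rw [← div_le_iff₀ (by linarith only [hα])]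
    exact hk₁.trans (by exact_mod_cast (le_max_left _ _).trans hk)
  have hkm' : k ≤ m := by
    have : (k : ℝ) ≤ m := (le_mul_of_one_le_left (Nat.cast_nonneg _) hα1).trans hkm
    exact_mod_cast this
  set n := m / D with hn
  have hn0 : 0 < n := Nat.div_pos (hDk.trans hkm') hD0
  have hnD : (m : ℝ) - D ≤ n * D := by
    have : (m : ℝ) < n * D + D := by exact_mod_cast Nat.lt_div_mul_add (a := m) hD0
    linarith only [this]
  obtain ⟨ι⟩ : Nonempty (Ω × Fin n ↪ Fin m) := by
    apply Function.Embedding.nonempty_of_card_le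
    rw [Fintype.card_prod, Fintype.card_fin, Fintype.card_fin, ← hD, mul_comm]
    exact Nat.div_mul_le_self m D
  have hA : ∀ T : Finset Ω, ∃ A : {A : Finset (Fin m) // A.card = k}, k ≤ n * T.card →
      (T ×ˢ {(⟨0, hn0⟩ : Fin n)}).map ι ⊆ A.1 ∧ A.1 ⊆ (T ×ˢ (univ : Finset (Fin n))).map ι := by
    intro T
    by_cases h : k ≤ n * T.card
    · obtain ⟨A, e1, e2, e3⟩ := exists_subsuperset_card_eq (n := k)
        ((map_subset_map (f := ι)).2 (product_subset_product_right (s := T)
          (subset_univ {(⟨0, hn0⟩ : Fin n)})))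
        (by simpa using (card_le_univ T).trans hDk) (by simpa [mul_comm] using h)
      exact ⟨⟨A, e3⟩, fun _ => ⟨e1, e2⟩⟩
    · obtain ⟨A, -, hAc⟩ := exists_subset_card_eq (s := (univ : Finset (Fin m))) (n := k)
        (by simpa using hkm')
      exact ⟨⟨A, hAc⟩, fun h' => absurd h' h⟩
  choose A hA using hA
  obtain ⟨S, hsize, hdisj, ⟨κ, hκ⟩, i, hi⟩ := hΩ fun T T' =>
    if h : (kneserGraph m k).Adj (A T) (A T') then χ ⟨s(A T, A T'), h⟩ else ⟨0, hc⟩
  have hbig : ∀ j, k ≤ n * (S j).card := by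
    intro j
    have e1 := mul_le_mul_of_nonneg_left (hsize j) (Nat.cast_nonneg (α := ℝ) n)
    have e2 : (1 - η) * b * (α * k - D) ≤ (1 - η) * b * (n * D) :=
      mul_le_mul_of_nonneg_left (by linarith only [hkm, hnD]) (mul_nonneg (sub_nonneg.2 h3) hβ)
    have e3 := mul_le_mul_of_nonneg_right h4 (Nat.cast_nonneg (α := ℝ) k)
    have e4 : 0 ≤ η * b * D := by positivity
    have e5 : a * k ≤ a * (n * (S j).card) := by linarith only [hk1, e1, e2, e3, e4]
    exact_mod_cast le_of_mul_le_mul_left e5 hZ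
  have hmem : ∀ j z, ι (κ z, ⟨0, hn0⟩) ∈ (A (S j)).1 ↔ ∃ x, f j x = z := fun j z => by
    rw [← hκ]
    exact ⟨fun h => by simpa using (hA _ (hbig j)).2 h, fun h => (hA _ (hbig j)).1 (by simpa using h)⟩
  have hinj : Function.Injective fun j => A (S j) := fun j j' h => by
    obtain ⟨x, hx⟩ := hp j
    obtain ⟨y, hy⟩ := (hmem j' _).1 (congrArg Subtype.val h ▸ (hmem j _).2 ⟨x, rfl⟩)
    exact (hx j' y hy).symm
  have hadj : ∀ j j', j < j' → H.Adj j j' → (kneserGraph m k).Adj (A (S j)) (A (S j')) := by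
    refine fun j j' hj h => ⟨fun h' => h.ne (hinj h'), ?_⟩
    refine Disjoint.mono (hA _ (hbig j)).2 (hA _ (hbig j')).2 ?_
    rw [disjoint_map, disjoint_left]
    exact fun w e1 e2 => disjoint_left.1 (hdisj j j' hj h) (mem_product.1 e1).1 (mem_product.1 e2).1
  have hiff : ∀ j j', (kneserGraph m k).Adj (A (S j)) (A (S j')) ↔ H.Adj j j' := by
    refine fun j j' => ⟨fun h => ?_, fun h => ?_⟩
    · by_contra h'
      obtain ⟨x, y, hxy⟩ := hm j j' h'
      exact disjoint_left.1 h.2 ((hmem j _).2 ⟨x, rfl⟩) ((hmem j' _).2 ⟨y, hxy.symm⟩)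
    · rcases h.ne.lt_or_gt with e | e
      exacts [hadj j j' e h, (hadj j' j e h.symm).symm]
  have hcol : ∀ j j' (h : (kneserGraph m k).Adj (A (S j)) (A (S j'))),
      χ ⟨s(A (S j), A (S j')), h⟩ = i := by
    intro j j' h'
    have h := (hiff j j').1 h'
    rcases h.ne.lt_or_gt with e | e
    · exact (dif_pos h').symm.trans (hi j j' e h)
    · exact (congrArg χ (Subtype.ext Sym2.eq_swap)).trans
        ((dif_pos h'.symm).symm.trans (hi j' j e h.symm))
  exact ⟨⟨⟨_, hinj⟩, fun {j j'} => hiff j j'⟩, i, hcol⟩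

theorem kneser_fold {r c a b : ℕ} (hc : 0 < c) (hr : 3 ≤ r) (H : SimpleGraph (Fin r))
    (hH : FoldCol H a b) {i₀ j₀ : Fin r} (h₀ : H.Adj i₀ j₀) {α : ℝ} (hα0 : 0 ≤ α)
    (hα : (a : ℝ) < α * b) :
    ∃ k₀ : ℕ, ∀ k : ℕ, k₀ ≤ k → ∀ m : ℕ, α * k ≤ m → IndArrows (kneserGraph m k) H c := by
  obtain ⟨g, hg, hd⟩ := hH
  obtain ⟨t, ht⟩ := exists_nat_gt
    ((Fintype.card (Sym2 (Fin r) × Option (Fin r)) : ℝ) / (α * b - a))
  rw [div_lt_iff₀ (by linarith only [hα])] at ht
  let f : Fin r → (Fin b × Fin t) ⊕ Fin r → (Fin a × Fin t) ⊕ (Sym2 (Fin r) × Option (Fin r)) :=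
    fun i => Sum.map (fun x => ((g i).orderEmbOfFin (hg i) x.1, x.2))
      fun w => (s(i, w), if H.Adj i w then some i else none)
  have : Nonempty ((Fin a × Fin t) ⊕ (Sym2 (Fin r) × Option (Fin r))) := ⟨f i₀ (Sum.inr i₀)⟩
  refine kneser_fin hc hr H f (fun i => Function.Injective.sumMap (fun x y h => ?_) fun x y h => ?_)
    (fun i j hij => ?_) (fun i j hij => ⟨Sum.inr j, Sum.inr i, ?_⟩)
    (fun i => ⟨Sum.inr i, fun j y h => ?_⟩) h₀ ?_
  · exact Prod.ext (((g i).orderEmbOfFin (hg i)).injective (Prod.mk.inj h).1) (Prod.mk.inj h).2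
  · exact Sym2.congr_right.1 (congrArg Prod.fst h)
  · rintro (x | x) (y | y) h
    · have e : (g i).orderEmbOfFin (hg i) x.1 = (g j).orderEmbOfFin (hg j) y.1 :=
        congrArg Prod.fst (Sum.inl.inj h)
      exact disjoint_left.1 (hd i j hij) (orderEmbOfFin_mem _ _ x.1) (e ▸ orderEmbOfFin_mem _ _ y.1)
    · cases h
    · cases h
    · obtain ⟨e1, e2⟩ := Prod.mk.inj (Sum.inr.inj h)
      rcases Sym2.eq_iff.1 e1 with ⟨e, -⟩ | ⟨rfl, rfl⟩
      · exact hij.ne e
      · rw [if_pos hij, if_pos hij.symm] at e2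
        exact hij.ne (Option.some.inj e2)
  · simp only [f, Sum.map_inr, if_neg hij, if_neg fun h : H.Adj j i => hij h.symm, Sym2.eq_swap]
  · rcases y with y | y
    · cases h
    · rcases Sym2.eq_iff.1 (congrArg Prod.fst (Sum.inr.inj h)) with e | e <;> exact e.1
  · rw [Fintype.card_sum, Fintype.card_sum, Fintype.card_prod (Fin a), Fintype.card_prod (Fin b)]
    simp only [Fintype.card_fin]
    push_cast
    linarith only [ht, hα0, mul_nonneg hα0 (Nat.cast_nonneg (α := ℝ) r)]

variable {W : Type} [Fintype W] (H : SimpleGraph W)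

theorem foldCol_card : FoldCol H (Fintype.card W) 1 :=
  ⟨fun v => {Fintype.equivFin W v}, fun _ => card_singleton _,
    fun _ _ h => disjoint_singleton.2 fun e => h.ne ((Fintype.equivFin W).injective e)⟩

omit [Fintype W] in
theorem fracChrom_le {a b : ℕ} (hb : 0 < b) (h : FoldCol H a b) : fracChrom H ≤ (a : ℝ) / b := by
  refine csInf_le (s := {x : ℝ | ∃ a b : ℕ, 0 < b ∧ FoldCol H a b ∧ x = (a : ℝ) / b}) ⟨0, ?_⟩
    ⟨a, b, hb, h, rfl⟩
  rintro _ ⟨a, b, -, -, rfl⟩
  positivity

omit [Fintype W] in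
theorem IndArrows.of_embedding {V W' : Type} {G : SimpleGraph V} {H' : SimpleGraph W'} {c : ℕ}
    (e : H ↪g H') (h : IndArrows G H' c) : IndArrows G H c := fun χ => by
  obtain ⟨φ, i, hi⟩ := h χ
  exact ⟨e.trans φ, i, fun u v huv => hi _ _ huv⟩

theorem arrows_of_lt {c : ℕ} (hc : 0 < c) {u₀ v₀ : W} (h₀ : H.Adj u₀ v₀) {α : ℝ}
    (hα : fracChrom H < α) :
    ∃ k₀ : ℕ, ∀ k : ℕ, k₀ ≤ k → ∀ m : ℕ, α * k ≤ m → IndArrows (kneserGraph m k) H c := by
  obtain ⟨_, ⟨a, b, hb, ⟨g, hg, hd⟩, rfl⟩, h⟩ := exists_lt_of_csInf_lt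
    (s := {x : ℝ | ∃ a b : ℕ, 0 < b ∧ FoldCol H a b ∧ x = (a : ℝ) / b})
    ⟨_, _, 1, one_pos, foldCol_card H, rfl⟩ hα
  have hb' : (0 : ℝ) < b := by exact_mod_cast hb
  let e : W ↪ Fin (Fintype.card W + 1) := (Fintype.equivFin W).toEmbedding.trans Fin.castSuccEmb
  have : Nontrivial W := ⟨u₀, v₀, h₀.ne⟩
  have hr : 3 ≤ Fintype.card W + 1 := Nat.succ_le_succ Fintype.one_lt_card
  have hF : FoldCol (H.map e) a b := by
    refine ⟨Function.extend e g fun _ => g u₀, fun i => ?_, ?_⟩
    · by_cases hi : ∃ v, e v = i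
      · obtain ⟨v, rfl⟩ := hi
        rw [e.injective.extend_apply, hg]
      · rw [Function.extend_apply' _ _ _ hi, hg]
    · intro i j hij
      obtain ⟨u, v, huv, rfl, rfl⟩ := (SimpleGraph.map_adj _ _ _ _).1 hij
      rw [e.injective.extend_apply, e.injective.extend_apply]
      exact hd u v huv
  obtain ⟨k₀, hk⟩ := kneser_fold hc hr (H.map e) hF
    ((SimpleGraph.Embedding.map e H).map_rel_iff.2 h₀) (le_trans (by positivity) h.le)
    ((div_lt_iff₀ hb').1 h)
  exact ⟨k₀, fun k hk' m hm =>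
    (hk k hk' m hm).of_embedding H (SimpleGraph.Embedding.map e H)⟩

omit [Fintype W] in
theorem exists_adj (hH : ¬ H.Colorable 2) : ∃ u v, H.Adj u v := by
  by_contra h
  exact hH ⟨SimpleGraph.Coloring.mk (fun _ => 0) fun {u v} h' => absurd ⟨u, v, h'⟩ h⟩

omit [Fintype W] in
theorem foldCol_of_arrows (hH : ¬ H.Colorable 2) {c m k : ℕ} (hc : 2 ≤ c)
    (h : IndArrows (kneserGraph (m + 1) k) H c) : FoldCol H m k := by
  obtain ⟨φ, i, hi⟩ := h fun e => if ∃ A ∈ e.1, 0 ∈ A.1 then ⟨0, by omega⟩ else ⟨1, by omega⟩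
  obtain ⟨u₀, v₀, h₀⟩ := exists_adj H hH
  have hd : ∀ u v, H.Adj u v → Disjoint (φ u).1 (φ v).1 := fun u v h => (φ.map_rel_iff.2 h).2
  have h1 : ∀ u v, H.Adj u v → 0 ∉ (φ u).1 := by
    intro u v huv h0
    refine hH ⟨SimpleGraph.Coloring.mk (fun w => if 0 ∈ (φ w).1 then 0 else 1) fun {x y} hxy => ?_⟩
    have e := (hi x y (φ.map_rel_iff.2 hxy)).trans (hi u v (φ.map_rel_iff.2 huv)).symm
    rw [if_pos (c := ∃ A ∈ s(φ u, φ v), 0 ∈ A.1) ⟨_, Sym2.mem_mk_left _ _, h0⟩] at e
    have e1 : ∃ A ∈ s(φ x, φ y), 0 ∈ A.1 := by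
      by_contra h'
      rw [if_neg h'] at e
      exact absurd (congrArg Fin.val e) one_ne_zero
    obtain ⟨A, hA, e2⟩ := e1
    rcases Sym2.mem_iff.1 hA with rfl | rfl
    · simp [e2, disjoint_left.1 (hd x y hxy) e2]
    · simp [e2, disjoint_right.1 (hd x y hxy) e2]
  have h2 : ∀ A : Finset (Fin (m + 1)), 0 ∉ A →
      (A.preimage Fin.succ (Fin.succ_injective m).injOn).card = A.card := fun A hA => by
    rw [card_preimage, filter_true_of_mem fun x hx => ?_]
    exact Fin.exists_succ_eq.2 fun e => hA (e ▸ hx)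
  refine ⟨fun v => (φ (if 0 ∈ (φ v).1 then u₀ else v)).1.preimage Fin.succ
    (Fin.succ_injective m).injOn, fun v => ?_, fun u v huv => ?_⟩
  · rw [h2, (φ _).2]
    split_ifs with h
    exacts [h1 _ _ h₀, h]
  · simp only [if_neg (h1 _ _ huv), if_neg (h1 _ _ huv.symm)]
    exact disjoint_left.2 fun x e1 e2 =>
      disjoint_left.1 (hd u v huv) (mem_preimage.1 e1) (mem_preimage.1 e2)

theorem arrows_iff (hH : ¬ H.Colorable 2) (c : ℕ) (hc : 2 ≤ c) (α : ℚ) (hα : 0 < α) :
    (∃ k₀ : ℕ, ∀ k : ℕ, k₀ ≤ k → ∀ m : ℕ, (m : ℚ) = α * (k : ℚ) →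
      IndArrows (kneserGraph m k) H c) ↔ fracChrom H < (α : ℝ) := by
  constructor
  · rintro ⟨k₀, h⟩
    obtain ⟨n, hn⟩ : ∃ n : ℕ, α.num = n + 1 :=
      ⟨(α.num - 1).toNat, by have := Rat.num_pos.2 hα; omega⟩
    have e : ((n * (k₀ + 1) + k₀ + 1 : ℕ) : ℚ) = α * ((α.den * (k₀ + 1) : ℕ) : ℚ) := by
      push_cast
      rw [← mul_assoc, Rat.mul_den_eq_num, hn]
      push_cast
      ring
    have hk : 0 < α.den * (k₀ + 1) := Nat.mul_pos α.den_pos k₀.succ_pos
    have h1 := foldCol_of_arrows H hH hc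
      (h _ (k₀.le_succ.trans (Nat.le_mul_of_pos_left _ α.den_pos)) _ e)
    refine (fracChrom_le H hk h1).trans_lt ?_
    have e' : ((n * (k₀ + 1) + k₀ + 1 : ℕ) : ℝ) = α * ((α.den * (k₀ + 1) : ℕ) : ℝ) := by
      exact_mod_cast e
    rw [div_lt_iff₀ (by exact_mod_cast hk), ← e']
    exact_mod_cast Nat.lt_succ_self _
  · intro h
    obtain ⟨u, v, huv⟩ := exists_adj H hH
    obtain ⟨k₀, hk⟩ := arrows_of_lt H (c := c) (by omega) huv h
    refine ⟨k₀, fun k hk' m hm => hk k hk' m (le_of_eq ?_)⟩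
    exact_mod_cast hm.symm

omit [Fintype W] in
theorem fracChrom_le_two (hH : H.Colorable 2) : fracChrom H ≤ 2 := by
  obtain ⟨g⟩ := hH
  simpa using fracChrom_le H one_pos (a := 2)
    ⟨fun v => {g v}, fun _ => card_singleton _, fun _ _ h => disjoint_singleton.2 (g.valid h)⟩

/-- The exact threshold, for every finite graph `H`. -/
theorem threshold (c : ℕ) (hc : 2 ≤ c) (α : ℚ) (hα : 2 < α) :
    (∃ k₀ : ℕ, ∀ k : ℕ, k₀ ≤ k → ∀ m : ℕ, (m : ℚ) = α * (k : ℚ) →
      IndArrows (kneserGraph m k) H c) ↔ fracChrom H < (α : ℝ) := by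
  by_cases hH : H.Colorable 2
  · have h2 : (2 : ℝ) < α := by exact_mod_cast hα
    refine iff_of_true ?_ ((fracChrom_le_two H hH).trans_lt h2)
    have h3 : (H ⊕g (⊤ : SimpleGraph (Fin 2))).Colorable 2 := by
      simpa using hH.sum_max (SimpleGraph.colorable_of_fintype (⊤ : SimpleGraph (Fin 2)))
    obtain ⟨k₀, hk⟩ := arrows_of_lt (H ⊕g (⊤ : SimpleGraph (Fin 2))) (c := c) (by omega)
      (u₀ := Sum.inr 0) (v₀ := Sum.inr 1) (by simp) ((fracChrom_le_two _ h3).trans_lt h2)
    refine ⟨k₀, fun k hk' m hm => (hk k hk' m (le_of_eq ?_)).of_embedding H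
      SimpleGraph.Embedding.sumInl⟩
    exact_mod_cast hm.symm
  · exact arrows_iff H hH c hc α (by linarith only [hα])

end Pool.Agent.Work.MP_90c2fd_co
end
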